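import Mathlib
import Pool.Agent.W762.RK2.EXP4b

/-!
# Moments of the local count for twist families: definitions and the local identity

`B` is a finite set of bits: a tuple of divisors `d b`, `b ∈ B`. For the `k`-th moment of the number
of pairs of divisors that satisfy the local conditions we take `B = Fin k × Bool`.
The proofs extend those of `Pool/Agent/W762/RK2/EXP4a.lean`, `EXP4b.lean` (the case of two bits).
-/

set_option autoImplicit false

namespace Pool.Agent.U563.MM

open Finset Pool.Agent.W262.RK Pool.Agent.W108.RK Pool.Agent.W762.RK2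

variable {J B : Type} [Fintype J] [DecidableEq J] [Fintype B] [DecidableEq B]

/-- the parity of the number of the common bits -/
def dt (x v : B → Bool) : Bool := decide (Odd (univ.filter (fun b => x b = true ∧ v b = true)).card)

/-- the local condition at `p` for the tuple `d`, with the constants `c` and the set `E` of the
primes with negative sign -/
def LCB (c : J → (B → Bool) → B → ℤ) (s : J → ℕ) (E : Finset ℕ) (d : B → ℕ) (p : ℕ) : Prop :=
  ∀ j, p ∣ s j → ∀ b, sgn p (d b) =
    xor (decide (p ∈ E) && dv p (d b)) (sg0 p (c j (fun b' => dv p (d b')) b))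

open Classical in
/-- the number of the tuples of divisors of `∏ s j` that satisfy the local conditions -/
noncomputable def NLB (c : J → (B → Bool) → B → ℤ) (s : J → ℕ) (E : Finset ℕ) : ℕ :=
  ((Fintype.piFinset (fun _ : B => (∏ j, s j).divisors)).filter
    (fun d => ∀ p ∈ (∏ j, s j).primeFactors, LCB c s E d p)).card

/-- the average of `NLB` over the signs -/
noncomputable def NBB (c : J → (B → Bool) → B → ℤ) (s : J → ℕ) : ℝ :=
  (1 / 2) ^ (∏ j, s j).primeFactors.card *
    ∑ E ∈ (∏ j, s j).primeFactors.powerset, (NLB c s E : ℝ)

/-- the index set: `(j, v, x)` with `x · v = 0` -/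
def IB (J B : Type) [Fintype B] [DecidableEq B] : Type :=
  {i : J × (B → Bool) × (B → Bool) // dt i.2.2 i.2.1 = false}

instance : Fintype (IB J B) := by unfold IB; infer_instance

instance : DecidableEq (IB J B) := by unfold IB; infer_instance

/-- the symbol `(d i / d i')` occurs if `x_{i'} · v_i = 1` -/
def Lk (i i' : IB J B) : Bool := dt i'.1.2.2 i.1.2.1

/-- the constants -/
def κB (c : J → (B → Bool) → B → ℤ) (i : IB J B) : ℤ :=
  ∏ b, if i.1.2.2 b = true then c i.1.1 i.1.2.1 b else 1

omit [DecidableEq B] in
/-- product of signs -/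
lemma prod_bits (x v : B → Bool) (t : ℝ) (ht : t * t = 1) :
    (∏ b, if x b = true then (if v b = true then t else 1) else 1) =
      if dt x v = true then t else 1 := by
  have h1 : ∀ b, (if x b = true then (if v b = true then t else 1) else 1) =
      if x b = true ∧ v b = true then t else 1 := by
    intro b
    by_cases h : x b = true <;> by_cases h' : v b = true <;> simp [h, h']
  rw [prod_congr rfl fun b _ => h1 b, prod_ite, prod_const_one, mul_one, prod_const]
  unfold dt
  set n := (univ.filter (fun b => x b = true ∧ v b = true)).card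
  by_cases h : Odd n
  · obtain ⟨m, hm⟩ := h
    have h2 : Odd n := ⟨m, hm⟩
    rw [if_pos (by simpa using h2), hm, pow_succ, pow_mul, pow_two, ht, one_pow, one_mul]
  · rw [if_neg (by simpa using h)]
    obtain ⟨m, hm⟩ := Nat.not_odd_iff_even.1 h
    rw [hm, ← two_mul, pow_mul, pow_two, ht, one_pow]

lemma sg_mul_self (b : Bool) : sg b * sg b = 1 := by
  cases b <;> simp [sg]

lemma sg_xor (a b : Bool) : sg (xor a b) = sg a * sg b := by
  cases a <;> cases b <;> simp [sg]

lemma sg_and (a b : Bool) : sg (a && b) = if b = true then sg a else 1 := by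
  cases a <;> cases b <;> simp [sg]

lemma ind_eq (a b : Bool) : ind (a = b) = (1 + sg a * sg b) / 2 := by
  cases a <;> cases b <;> simp [ind, sg]

/-- Fourier expansion of the indicator -/
lemma ind_all (h k : B → Bool) : ind (∀ b, h b = k b) = (1 / 2 : ℝ) ^ Fintype.card B *
    ∑ x : B → Bool, (∏ b, if x b = true then sg (k b) else 1) *
      ∏ b, if x b = true then sg (h b) else 1 := by
  have h1 : ind (∀ b, h b = k b) = ∏ b, ind (h b = k b) := by
    by_cases hh : ∀ b, h b = k b
    · rw [ind, if_pos hh]
      exact (Finset.prod_eq_one fun b _ => by rw [ind, if_pos (hh b)]).symm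
    · rw [ind, if_neg hh]
      push Not at hh
      obtain ⟨b, hb⟩ := hh
      exact (Finset.prod_eq_zero (mem_univ b) (by rw [ind, if_neg hb])).symm
  have h2 : ∀ b, ind (h b = k b) =
      (1 / 2 : ℝ) * ∑ t : Bool, (if t = true then sg (k b) * sg (h b) else 1) := by
    intro b
    rw [ind_eq, Fintype.sum_bool]
    simp only [if_true, Bool.false_eq_true, if_false]
    ring
  rw [h1, prod_congr rfl fun b _ => h2 b, prod_mul_distrib, prod_const, card_univ]
  congr 1
  rw [Finset.prod_univ_sum, Fintype.piFinset_univ]
  refine sum_congr rfl fun x _ => ?_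
  rw [← prod_mul_distrib]
  refine prod_congr rfl fun b _ => ?_
  split_ifs <;> simp

/-- the local identity -/
lemma loc_idB (v h k : B → Bool) :
    (ind (∀ b, h b = xor (true && v b) (k b)) + ind (∀ b, h b = xor (false && v b) (k b))) / 2 =
      ∑ x : B → Bool, if dt x v = false then
        (1 / 2 : ℝ) ^ Fintype.card B * ((∏ b, if x b = true then sg (k b) else 1) *
          ∏ b, if x b = true then sg (h b) else 1) else 0 := by
  rw [ind_all, ind_all, ← mul_add, ← sum_add_distrib, mul_div_assoc, sum_div, mul_sum]
  refine sum_congr rfl fun x _ => ?_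
  have h1 : (∏ b, if x b = true then sg (xor (true && v b) (k b)) else 1) =
      (if dt x v = true then -1 else 1) * ∏ b, if x b = true then sg (k b) else 1 := by
    rw [← prod_bits x v (-1) (by norm_num), ← prod_mul_distrib]
    refine prod_congr rfl fun b _ => ?_
    rw [sg_xor, sg_and]
    have : sg true = -1 := by simp [sg]
    rw [this]
    split_ifs <;> simp
  have h2 : (∏ b, if x b = true then sg (xor (false && v b) (k b)) else 1) =
      ∏ b, if x b = true then sg (k b) else 1 := by
    refine prod_congr rfl fun b _ => ?_
    simp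
  rw [h1, h2]
  cases hd : dt x v
  · simp only [Bool.false_eq_true, if_false, if_true]
    ring
  · simp only [if_true, Bool.true_eq_false, if_false]
    ring

end Pool.Agent.U563.MM
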