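import Mathlib
import Pool.Agent.U563.MM.ExpA

/-!
# The largest unlinked set: isotropic subspaces over the field with two elements
-/

set_option autoImplicit false

namespace Pool.Agent.U563.MM

open Finset

section iso

variable {B : Type} [Fintype B] [DecidableEq B]

/-- bits as elements of the field with two elements -/
def ph (v : B → Bool) : B → ZMod 2 := fun b => if v b = true then 1 else 0

omit [Fintype B] [DecidableEq B] in
lemma ph_inj : Function.Injective (ph : (B → Bool) → B → ZMod 2) := by
  intro v w h
  funext b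
  have h1 := congrFun h b
  unfold ph at h1
  cases hv : v b <;> cases hw : w b <;> simp [hv, hw] at h1 ⊢

omit [DecidableEq B] in
lemma dot_ph (x v : B → Bool) : ph x ⬝ᵥ ph v = if dt x v = true then 1 else 0 := by
  have h1 : ph x ⬝ᵥ ph v = ((univ.filter (fun b => x b = true ∧ v b = true)).card : ZMod 2) := by
    unfold dotProduct
    rw [Finset.card_filter]
    push_cast
    refine sum_congr rfl fun b _ => ?_
    unfold ph
    by_cases h : x b = true <;> by_cases h' : v b = true <;> simp [h, h']
  rw [h1]
  unfold dt
  set n := (univ.filter (fun b => x b = true ∧ v b = true)).card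
  by_cases h : Odd n
  · rw [if_pos (by simpa using h)]
    exact (ZMod.natCast_eq_one_iff_odd).2 h
  · rw [if_neg (by simpa using h)]
    exact (ZMod.natCast_eq_zero_iff_even).2 (Nat.not_odd_iff_even.1 h)

/-- the alternating form -/
noncomputable def om (B : Type) [Fintype B] :
    LinearMap.BilinForm (ZMod 2) ((B → ZMod 2) × (B → ZMod 2)) :=
  LinearMap.mk₂ (ZMod 2)
    (fun a a' : (B → ZMod 2) × (B → ZMod 2) => a'.2 ⬝ᵥ a.1 + a.2 ⬝ᵥ a'.1)
    (fun a b c => by
      simp only [Prod.fst_add, Prod.snd_add, dotProduct_add, add_dotProduct]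
      ring)
    (fun r a b => by
      simp only [Prod.smul_fst, Prod.smul_snd, dotProduct_smul, smul_dotProduct, smul_eq_mul]
      ring)
    (fun a b c => by
      simp only [Prod.fst_add, Prod.snd_add, dotProduct_add, add_dotProduct]
      ring)
    (fun r a b => by
      simp only [Prod.smul_fst, Prod.smul_snd, dotProduct_smul, smul_dotProduct, smul_eq_mul]
      ring)

omit [DecidableEq B] in
lemma om_apply (a a' : (B → ZMod 2) × (B → ZMod 2)) :
    om B a a' = a'.2 ⬝ᵥ a.1 + a.2 ⬝ᵥ a'.1 := rfl

lemma om_sepl (a : (B → ZMod 2) × (B → ZMod 2)) (h : ∀ a', om B a a' = 0) : a = 0 := by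
  have h1 : a.1 = 0 := by
    funext b
    have := h (0, Pi.single b 1)
    rw [om_apply] at this
    simpa using this
  have h2 : a.2 = 0 := by
    funext b
    have := h (Pi.single b 1, 0)
    rw [om_apply] at this
    simpa using this
  exact Prod.ext h1 h2

omit [DecidableEq B] in
lemma om_symm (a a' : (B → ZMod 2) × (B → ZMod 2)) : om B a a' = om B a' a := by
  rw [om_apply, om_apply, add_comm]

lemma om_nondeg : (om B).Nondegenerate := by
  refine ⟨fun a h => om_sepl a h, fun a h => om_sepl a fun a' => ?_⟩
  rw [om_symm]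
  exact h a'

open Module in
/-- a set of pairwise orthogonal vectors has at most `2 ^ |B|` elements -/
lemma iso_card (S : Finset ((B → Bool) × (B → Bool)))
    (h : ∀ t ∈ S, ∀ t' ∈ S, dt t'.2 t.1 = dt t.2 t'.1) : S.card ≤ 2 ^ Fintype.card B := by
  classical
  set F : (B → Bool) × (B → Bool) → (B → ZMod 2) × (B → ZMod 2) := fun t => (ph t.1, ph t.2) with hF
  have hFi : Function.Injective F := by
    intro t t' ht
    exact Prod.ext (ph_inj (congrArg Prod.fst ht)) (ph_inj (congrArg Prod.snd ht))
  set W : Submodule (ZMod 2) ((B → ZMod 2) × (B → ZMod 2)) :=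
    Submodule.span (ZMod 2) (F '' (S : Set _)) with hW
  have h0 : ∀ t ∈ S, ∀ t' ∈ S, om B (F t) (F t') = 0 := by
    intro t ht t' ht'
    rw [om_apply, hF]
    simp only
    rw [dot_ph, dot_ph, h t ht t' ht', ← two_mul]
    have : (2 : ZMod 2) = 0 := rfl
    rw [this, zero_mul]
  have h1 : ∀ a ∈ W, ∀ a' ∈ W, om B a a' = 0 := by
    intro a ha a' ha'
    induction ha using Submodule.span_induction with
    | mem a ha =>
      obtain ⟨t, ht, rfl⟩ := ha
      induction ha' using Submodule.span_induction with
      | mem a' ha' =>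
        obtain ⟨t', ht', rfl⟩ := ha'
        exact h0 t ht t' ht'
      | zero => simp
      | add x y _ _ hx hy => rw [map_add, hx, hy, add_zero]
      | smul r x _ hx => rw [map_smul, hx, smul_zero]
    | zero => simp
    | add x y _ _ hx hy => rw [map_add, LinearMap.add_apply, hx, hy, add_zero]
    | smul r x _ hx => rw [map_smul, LinearMap.smul_apply, hx, smul_zero]
  have h2 : W ≤ (om B).orthogonal W := by
    intro a ha
    rw [LinearMap.BilinForm.mem_orthogonal_iff]
    intro a' ha'
    exact h1 a' ha' a ha
  have h3 := Submodule.finrank_mono h2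
  rw [LinearMap.BilinForm.finrank_orthogonal om_nondeg] at h3
  have h4 : finrank (ZMod 2) ((B → ZMod 2) × (B → ZMod 2)) = 2 * Fintype.card B := by
    rw [Module.finrank_prod, Module.finrank_fintype_fun_eq_card]
    ring
  have h5 : finrank (ZMod 2) W ≤ finrank (ZMod 2) ((B → ZMod 2) × (B → ZMod 2)) :=
    Submodule.finrank_le W
  have h6 : finrank (ZMod 2) W ≤ Fintype.card B := by omega
  have h7 : Fintype.card W = 2 ^ finrank (ZMod 2) W := by
    rw [Module.card_eq_pow_finrank (K := ZMod 2), ZMod.card]
  calc S.card = (S.image F).card := (card_image_of_injective S hFi).symm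
    _ ≤ (univ.map (Function.Embedding.subtype (fun a => a ∈ W)) : Finset _).card := by
        apply card_le_card
        intro a ha
        obtain ⟨t, ht, rfl⟩ := mem_image.1 ha
        rw [mem_map]
        exact ⟨⟨F t, Submodule.subset_span ⟨t, ht, rfl⟩⟩, mem_univ _, rfl⟩
    _ = Fintype.card W := by rw [card_map, card_univ]
    _ ≤ 2 ^ Fintype.card B := by
        rw [h7]
        exact Nat.pow_le_pow_right (by norm_num) h6

end iso

variable {J B : Type} [Fintype J] [DecidableEq J] [Fintype B] [DecidableEq B]

/-- the largest unlinked set -/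
lemma combB (U : Finset (IB J B)) (hU : ∀ i ∈ U, ∀ i' ∈ U, Lk i i' = Lk i' i) :
    ∑ _i ∈ U, (1 / 2 : ℝ) ^ Fintype.card B ≤ Fintype.card J := by
  classical
  have h1 : U.card ≤ Fintype.card J * 2 ^ Fintype.card B := by
    have h2 : U.card = ∑ j, (U.filter (fun i => i.1.1 = j)).card :=
      card_eq_sum_card_fiberwise (fun _ _ => mem_univ _)
    rw [h2]
    calc ∑ j, (U.filter (fun i => i.1.1 = j)).card ≤ ∑ _j : J, 2 ^ Fintype.card B := by
          refine sum_le_sum fun j _ => ?_
          have h3 : (U.filter (fun i => i.1.1 = j)).card =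
              ((U.filter (fun i => i.1.1 = j)).image (fun i => i.1.2)).card := by
            refine (card_image_of_injOn ?_).symm
            intro i hi i' hi' hh
            have e1 := (mem_filter.1 (mem_coe.1 hi)).2
            have e2 := (mem_filter.1 (mem_coe.1 hi')).2
            exact Subtype.ext (Prod.ext (e1.trans e2.symm) hh)
          rw [h3]
          apply iso_card
          intro t ht t' ht'
          obtain ⟨i, hi, rfl⟩ := mem_image.1 ht
          obtain ⟨i', hi', rfl⟩ := mem_image.1 ht'
          exact hU i (mem_filter.1 hi).1 i' (mem_filter.1 hi').1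
      _ = _ := by rw [sum_const, card_univ, smul_eq_mul]
  rw [sum_const, nsmul_eq_mul]
  have h4 : (U.card : ℝ) ≤ Fintype.card J * 2 ^ Fintype.card B := by exact_mod_cast h1
  calc (U.card : ℝ) * (1 / 2 : ℝ) ^ Fintype.card B
      ≤ (Fintype.card J * 2 ^ Fintype.card B) * (1 / 2 : ℝ) ^ Fintype.card B :=
        mul_le_mul_of_nonneg_right h4 (by positivity)
    _ = Fintype.card J := by
        rw [mul_assoc, ← mul_pow]
        norm_num

end Pool.Agent.U563.MM
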