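import Mathlib
import Pool.Agent.U563.MM.ExpA

/-!
# Moments of the local count for twist families: expansion into symbols

The proofs extend those of `Pool/Agent/W762/RK2/EXP4b.lean` (the case of two bits).
-/

set_option autoImplicit false

namespace Pool.Agent.U563.MM

open Finset Pool.Agent.W262.RK Pool.Agent.W108.RK Pool.Agent.W762.RK2

variable {J B : Type} [Fintype J] [DecidableEq J] [Fintype B] [DecidableEq B] {z y : ℕ}

section big

/-- the bit `b` of the label -/
def bb (b : B) (x : Option (J × (B → Bool))) : Bool := x.elim false fun a => a.2 b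

/-- the divisor of the bit `b` -/
def DD (ξ : Pr z y → Option (J × (B → Bool))) (b : B) : ℕ := nb fun p => bb b (ξ p)

/-- the tuple -/
def SB (ξ : Pr z y → Option (J × (B → Bool))) : J → ℕ := Dl fun p => (ξ p).map Prod.fst

omit [Fintype B] [DecidableEq B] in
lemma DD_dvd (ξ : Pr z y → Option (J × (B → Bool))) (b : B) : DD ξ b ∣ ∏ j, SB ξ j := by
  unfold SB DD
  rw [prod_Dl]
  refine nb_dvd fun p hp => ?_
  cases h : ξ p with
  | none => rw [h] at hp; exact absurd hp (by simp [bb])
  | some a => rfl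

omit [Fintype B] [DecidableEq B] in
lemma prod_SB_ne (ξ : Pr z y → Option (J × (B → Bool))) : ∏ j, SB ξ j ≠ 0 := by
  unfold SB
  rw [prod_Dl]
  exact nb_ne_zero _

lemma sum_bigB (F : (J → ℕ) → (B → ℕ) → ℝ) :
    ∑ s ∈ Tup J z y, ∑ d ∈ Fintype.piFinset (fun _ : B => (∏ j, s j).divisors), F s d =
      ∑ ξ : Pr z y → Option (J × (B → Bool)), F (SB ξ) (DD ξ) := by
  rw [Finset.sum_sigma']
  symm
  refine Finset.sum_bij (fun ξ _ => ⟨SB ξ, DD ξ⟩) ?_ ?_ ?_ (fun _ _ => rfl)
  · intro ξ _
    rw [Finset.mem_sigma, Fintype.mem_piFinset]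
    exact ⟨Dl_mem _, fun b => Nat.mem_divisors.2 ⟨DD_dvd ξ b, prod_SB_ne ξ⟩⟩
  · intro ξ _ ξ' _ h
    have h1 : SB ξ = SB ξ' := congrArg Sigma.fst h
    have h2 : DD ξ = DD ξ' := congrArg Sigma.snd h
    funext p
    have e1 : (ξ p).map Prod.fst = (ξ' p).map Prod.fst := congrFun (Dl_inj h1) p
    have e2 : ∀ b, bb b (ξ p) = bb b (ξ' p) := fun b => congrFun (nb_inj (congrFun h2 b)) p
    cases hx : ξ p with
    | none =>
      cases hx' : ξ' p with
      | none => rfl
      | some a' => rw [hx, hx'] at e1; exact absurd e1 (by simp)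
    | some a =>
      cases hx' : ξ' p with
      | none => rw [hx, hx'] at e1; exact absurd e1 (by simp)
      | some a' =>
        rw [hx, hx'] at e1
        obtain ⟨j, v⟩ := a
        obtain ⟨j', v'⟩ := a'
        have e4 : j = j' := by simpa using e1
        have e5 : v = v' := by
          funext b
          have := e2 b
          rw [hx, hx'] at this
          exact this
        rw [e4, e5]
  · rintro ⟨s, d⟩ hs
    rw [Finset.mem_sigma, Fintype.mem_piFinset] at hs
    obtain ⟨hs, hd⟩ := hs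
    simp only at hs hd
    have hd' : ∀ b, d b ∣ ∏ j, s j := fun b => (Nat.mem_divisors.1 (hd b)).1
    have hPP : ∏ j, s j ∣ PP z y := by
      rw [← Dl_lab hs, prod_Dl]
      exact nb_dvd_PP _
    have hn : ∀ p : Pr z y, lab s p = none → ¬ (p : ℕ) ∣ ∏ j, s j := by
      intro p hp h
      rw [← Dl_lab hs, prod_Dl, dvd_nb, hp] at h
      exact absurd h (by simp)
    refine ⟨fun p => (lab s p).map fun j => (j, fun b => decide ((p : ℕ) ∣ d b)),
      Finset.mem_univ _, ?_⟩
    have e1 : SB (fun p : Pr z y => (lab s p).map fun j =>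
        (j, fun b => decide ((p : ℕ) ∣ d b))) = s := by
      unfold SB
      conv_rhs => rw [← Dl_lab hs]
      congr 1
      funext p
      show ((lab s p).map fun j => (j, fun b => decide ((p : ℕ) ∣ d b))).map Prod.fst = _
      cases lab s p <;> rfl
    have e2 : DD (fun p : Pr z y => (lab s p).map fun j =>
        (j, fun b => decide ((p : ℕ) ∣ d b))) = d := by
      funext b
      unfold DD
      conv_rhs => rw [← nb_eq ((hd' b).trans hPP)]
      congr 1
      funext p
      show bb b ((lab s p).map fun j => (j, fun b => decide ((p : ℕ) ∣ d b))) = _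
      cases hp : lab s p with
      | none =>
        have : ¬ (p : ℕ) ∣ d b := fun h => hn p hp (h.trans (hd' b))
        simp [bb, this]
      | some j => rfl
    rw [e1, e2]

end big

section average

/-- the local indicator -/
noncomputable def IlB (c : J → (B → Bool) → B → ℤ) (s : J → ℕ) (d : B → ℕ) (neg : Bool)
    (p : ℕ) : ℝ :=
  ind (∀ j, p ∣ s j → ∀ b, sgn p (d b) =
    xor (neg && dv p (d b)) (sg0 p (c j (fun b' => dv p (d b')) b)))

lemma NBB_eq (c : J → (B → Bool) → B → ℤ) (s : J → ℕ) :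
    NBB c s = ∑ d ∈ Fintype.piFinset (fun _ : B => (∏ j, s j).divisors),
      ∏ p ∈ (∏ j, s j).primeFactors, (IlB c s d true p + IlB c s d false p) / 2 := by
  classical
  have h1 : ∀ E : Finset ℕ, (NLB c s E : ℝ) =
      ∑ d ∈ Fintype.piFinset (fun _ : B => (∏ j, s j).divisors),
        ∏ p ∈ (∏ j, s j).primeFactors, IlB c s d (decide (p ∈ E)) p := by
    intro E
    unfold NLB
    rw [Finset.card_filter]
    push_cast
    refine Finset.sum_congr rfl fun d _ => ?_
    unfold IlB
    rw [prod_ind]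
    unfold ind LCB
    congr
  unfold NBB
  rw [Finset.sum_congr rfl fun E _ => h1 E, Finset.sum_comm, Finset.mul_sum]
  refine Finset.sum_congr rfl fun d _ => ?_
  exact avg (∏ j, s j).primeFactors (∏ j, s j).primeFactors (subset_refl _) (IlB c s d)
    (fun p hp hpA => absurd hp hpA)

end average

section final

/-- the local term -/
noncomputable def TmB (c : J → (B → Bool) → B → ℤ) (c0 : ℕ)
    (ξ : Pr z y → Option (J × (B → Bool))) (p : Pr z y) : ℝ :=
  (ξ p).elim 1 fun a => 1 / ((p : ℝ) - c0) *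
    ((ind (∀ b, sgn p (DD ξ b) = xor (true && a.2 b) (sg0 p (c a.1 a.2 b))) +
      ind (∀ b, sgn p (DD ξ b) = xor (false && a.2 b) (sg0 p (c a.1 a.2 b)))) / 2)

lemma lhs_eqB (c : J → (B → Bool) → B → ℤ) (c0 : ℕ) :
    ∑ s ∈ Tup J z y, NBB c s * ∏ j, gw 1 c0 (s j) =
      ∑ ξ : Pr z y → Option (J × (B → Bool)), ∏ p, TmB c c0 ξ p := by
  have h1 : ∀ s ∈ Tup J z y, NBB c s * ∏ j, gw 1 c0 (s j) =
      ∑ d ∈ Fintype.piFinset (fun _ : B => (∏ j, s j).divisors),
        (∏ p ∈ (∏ j, s j).primeFactors, (IlB c s d true p + IlB c s d false p) / 2) *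
          ∏ j, gw 1 c0 (s j) := by
    intro s _
    rw [NBB_eq c s, Finset.sum_mul]
  rw [Finset.sum_congr rfl h1, sum_bigB fun s d =>
    (∏ p ∈ (∏ j, s j).primeFactors, (IlB c s d true p + IlB c s d false p) / 2) *
          ∏ j, gw 1 c0 (s j)]
  refine Finset.sum_congr rfl fun ξ _ => ?_
  have h2 : ∏ j, gw 1 c0 (SB ξ j) = ∏ p : Pr z y, ((ξ p).map Prod.fst).elim 1
      fun _ => 1 / ((p : ℝ) - c0) := prod_gw (fun _ => 1) c0 _
  have h3 : ∏ j, SB ξ j = nb fun p => ((ξ p).map Prod.fst).isSome := prod_Dl _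
  rw [h2, h3, prod_pf _ fun p => (IlB c (SB ξ) (DD ξ) true p +
    IlB c (SB ξ) (DD ξ) false p) / 2, ← Finset.prod_mul_distrib]
  refine Finset.prod_congr rfl fun p _ => ?_
  unfold TmB
  cases hx : ξ p with
  | none => simp
  | some a =>
    have e1 : ∀ b, dv p (DD ξ b : ℤ) = a.2 b := by
      intro b
      have : bb b (ξ p) = a.2 b := by rw [hx]; rfl
      rw [← this]
      unfold dv
      rw [Bool.eq_iff_iff, decide_eq_true_iff, Int.natCast_dvd_natCast]
      exact dvd_nb _ p
    have e3 : ∀ j, (p : ℕ) ∣ SB ξ j ↔ j = a.1 := by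
      intro j
      unfold SB Dl
      rw [dvd_nb, decide_eq_true_iff]
      show (ξ p).map Prod.fst = some j ↔ j = a.1
      rw [hx]
      simp [eq_comm]
    have h4 : ∀ neg, IlB c (SB ξ) (DD ξ) neg p =
        ind (∀ b, sgn p (DD ξ b) = xor (neg && a.2 b) (sg0 p (c a.1 a.2 b))) := by
      intro neg
      unfold IlB
      congr 1
      simp only [e1, e3, forall_eq]
    simp only [h4]
    simp only [Option.map_some, Option.isSome_some, if_true, Option.elim]
    ring

lemma sum_IB (F : J × (B → Bool) × (B → Bool) → ℝ) :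
    ∑ i : IB J B, F i.1 = ∑ r, if dt r.2.2 r.2.1 = false then F r else 0 := by
  rw [← Finset.sum_filter]
  exact (Finset.sum_subtype (univ.filter fun r : J × (B → Bool) × (B → Bool) =>
    dt r.2.2 r.2.1 = false) (fun x => by simp) F).symm

/-- forget the character -/
def fgB (x : Option (IB J B)) : Option (J × (B → Bool)) := x.map fun i => (i.1.1, i.1.2.1)

/-- the local factor -/
noncomputable def GB (c : J → (B → Bool) → B → ℤ) (c0 : ℕ)
    (ξ : Pr z y → Option (J × (B → Bool))) (p : Pr z y) (x : Option (IB J B)) : ℝ :=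
  x.elim 1 fun i => 1 / ((p : ℝ) - c0) * ((1 / 2 : ℝ) ^ Fintype.card B * (Jr (κB c i) p *
    ∏ b, if i.1.2.2 b = true then sg (sgn p (DD ξ b)) else 1))

lemma Jr_κ (c : J → (B → Bool) → B → ℤ) (i : IB J B) {p : ℕ} (hp : p.Prime)
    (hc : ∀ j v b, ¬ (p : ℤ) ∣ c j v b) :
    Jr (κB c i) p = ∏ b, if i.1.2.2 b = true then sg (sg0 p (c i.1.1 i.1.2.1 b)) else 1 := by
  unfold κB
  rw [Jr_prod_left]
  refine prod_congr rfl fun b _ => ?_
  split_ifs
  · exact Jr_dvd_ne hp (hc _ _ _)
  · exact Jr_one_left p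

lemma sum_GB (c : J → (B → Bool) → B → ℤ) (c0 : ℕ)
    (ξ : Pr z y → Option (J × (B → Bool))) (p : Pr z y)
    (hc : ∀ j v b, ¬ ((p : ℕ) : ℤ) ∣ c j v b) :
    ∑ x ∈ univ.filter (fun x : Option (IB J B) => fgB x = ξ p), GB c c0 ξ p x =
      TmB c c0 ξ p := by
  rw [Finset.sum_filter, Fintype.sum_option]
  unfold TmB
  cases hx : ξ p with
  | none => simp [fgB, GB]
  | some a =>
    obtain ⟨j, v⟩ := a
    have h0 : (if fgB (none : Option (IB J B)) = some (j, v) then GB c c0 ξ p none else 0) = 0 := by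
      rw [if_neg]
      simp [fgB]
    rw [h0, zero_add]
    set F : J × (B → Bool) × (B → Bool) → ℝ := fun r : J × (B → Bool) × (B → Bool) =>
          if r.1 = j ∧ r.2.1 = v then 1 / ((p : ℝ) - c0) * ((1 / 2 : ℝ) ^ Fintype.card B *
            ((∏ b, if r.2.2 b = true then sg (sg0 p (c r.1 r.2.1 b)) else 1) *
            ∏ b, if r.2.2 b = true then sg (sgn p (DD ξ b)) else 1)) else 0 with hF
    have h1 : ∀ i : IB J B, (if fgB (some i) = some (j, v) then GB c c0 ξ p (some i) else 0) =
        F i.1 := by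
      intro i
      simp only [hF, fgB, Option.map_some, Option.some.injEq, Prod.mk.injEq, GB, Option.elim]
      rw [Jr_κ c i (Pr_prime p) hc]
    refine (Finset.sum_congr rfl fun i _ => h1 i).trans ((sum_IB F).trans ?_)
    rw [Fintype.sum_prod_type, Finset.sum_eq_single j]
    · rw [Fintype.sum_prod_type, Finset.sum_eq_single v]
      · show _ = 1 / ((p : ℝ) - c0) * _
        rw [loc_idB v (fun b => sgn p (DD ξ b)) (fun b => sg0 p (c j v b)), Finset.mul_sum]
        refine Finset.sum_congr rfl fun x _ => ?_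
        simp only [hF, and_self, if_true, mul_ite, mul_zero]
      · intro v' _ hv'
        refine Finset.sum_eq_zero fun x _ => ?_
        simp [hF, hv']
      · intro h
        exact absurd (Finset.mem_univ _) h
    · intro j' _ hj'
      refine Finset.sum_eq_zero fun x _ => ?_
      simp [hF, hj']
    · intro h
      exact absurd (Finset.mem_univ _) h

lemma bits_eqB (q p : Pr z y) (x v : B → Bool) (h : q = p → dt x v = false) :
    (if dt x v = true then Jr (q : ℕ) p else 1) =
      ∏ b, if x b = true then (if q ≠ p ∧ v b = true then Jr (q : ℕ) p else 1) else 1 := by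
  by_cases hqp : q = p
  · rw [h hqp]
    simp [hqp]
  · have hJ : Jr (q : ℕ) p * Jr (q : ℕ) p = 1 := by
      have hnd : ¬ ((p : ℕ) : ℤ) ∣ ((q : ℕ) : ℤ) := by
        rw [Int.natCast_dvd_natCast]
        intro hd
        exact hqp (Subtype.ext ((Nat.prime_dvd_prime_iff_eq (Pr_prime p) (Pr_prime q)).1 hd).symm)
      rw [← sg_sg0 (Pr_prime p) hnd]
      unfold sg
      split_ifs <;> norm_num
    rw [← prod_bits x v _ hJ]
    refine prod_congr rfl fun b _ => ?_
    simp [hqp]

lemma rhs_termB (c : J → (B → Bool) → B → ℤ) (c0 : ℕ)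
    (ξ : Pr z y → Option (J × (B → Bool))) (l : Pr z y → Option (IB J B))
    (h : ∀ p, fgB (l p) = ξ p) :
    (∏ i, gw ((1 / 2 : ℝ) ^ Fintype.card B) c0 (Dl l i)) *
        Pool.Agent.W262.RK.Sym Lk (κB c) (Dl l) =
      ∏ p, GB c c0 ξ p (l p) := by
  rw [prod_gw (fun _ => (1 / 2 : ℝ) ^ Fintype.card B), Sym_Dl, ← Finset.prod_mul_distrib,
    ← Finset.prod_mul_distrib]
  refine Finset.prod_congr rfl fun p _ => ?_
  cases hl : l p with
  | none =>
    have h0 : ∀ q, lk Lk (l q) none = false := by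
      intro q
      cases l q <;> rfl
    simp [h0, GB]
  | some i =>
    have h1 : ∀ q, lk Lk (l q) (some i) = dt i.1.2.2 (fun b => bb b (ξ q)) := by
      intro q
      rw [← h q]
      cases hq : l q with
      | none =>
        simp [lk, fgB, bb, dt]
      | some i' => rfl
    have h2 : ∏ q : Pr z y, (if lk Lk (l q) (some i) = true then Jr (q : ℕ) p else 1) =
        ∏ b, if i.1.2.2 b = true then sg (sgn p (DD ξ b)) else 1 := by
      have h3 : ∀ b, (if i.1.2.2 b = true then sg (sgn p (DD ξ b)) else 1) =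
          ∏ q : Pr z y, if i.1.2.2 b = true then
            (if q ≠ p ∧ bb b (ξ q) = true then Jr (q : ℕ) p else 1) else 1 := by
        intro b
        cases i.1.2.2 b
        · simp
        · simp only [if_true]
          exact sgn_nb _ p
      rw [prod_congr rfl fun b _ => h3 b, prod_comm]
      refine Finset.prod_congr rfl fun q _ => ?_
      rw [h1]
      refine bits_eqB q p _ _ fun hqp => ?_
      rw [hqp, ← h p, hl]
      exact i.2
    rw [h2]
    simp only [GB, Option.elim]
    ring

end final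

/-- expansion into symbols -/
theorem expB (c : J → (B → Bool) → B → ℤ) (c0 z y : ℕ) (hc : ∀ j v b, c j v b ≠ 0)
    (hcz : ∀ j v b, (c j v b).natAbs ≤ z) :
    ∑ s ∈ Tup J z y, NBB c s * ∏ j, gw 1 c0 (s j) =
      ∑ d ∈ Tup (IB J B) z y, (∏ i, gw ((1 / 2 : ℝ) ^ Fintype.card B) c0 (d i)) *
        Pool.Agent.W262.RK.Sym Lk (κB c) d := by
  classical
  rw [lhs_eqB, sum_Tup, ← Finset.sum_fiberwise univ
    (fun (l : Pr z y → Option (IB J B)) => fun p => fgB (l p))]
  refine Finset.sum_congr rfl fun ξ _ => ?_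
  have h1 : (univ.filter fun l : Pr z y → Option (IB J B) => (fun p => fgB (l p)) = ξ) =
      Fintype.piFinset (fun p => univ.filter (fun x : Option (IB J B) => fgB x = ξ p)) := by
    ext l
    simp only [Finset.mem_filter, Finset.mem_univ, true_and, Fintype.mem_piFinset, funext_iff]
  have hk : ∀ p : Pr z y, ∀ j v b, ¬ ((p : ℕ) : ℤ) ∣ c j v b := by
    intro p j v b hd
    have hz : z < p := by
      have := p.2
      unfold PS at this
      exact (Finset.mem_Ioc.1 (Finset.mem_filter.1 this).1).1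
    have h3 := Nat.le_of_dvd (Int.natAbs_pos.mpr (hc j v b)) (Int.natCast_dvd.1 hd)
    have h4 := hcz j v b
    omega
  rw [h1, Finset.prod_congr rfl fun p _ => (sum_GB c c0 ξ p (hk p)).symm, Finset.prod_univ_sum]
  refine Finset.sum_congr rfl fun l hl => ?_
  rw [Fintype.mem_piFinset] at hl
  exact (rhs_termB c c0 ξ l fun p => (Finset.mem_filter.1 (hl p)).2).symm

end Pool.Agent.U563.MM
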