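import Mathlib
import Pool.Agent.U563.MM.ExpB
import Pool.Agent.U563.MM.Comb
import Pool.Agent.U563.MM.SubK
import Pool.Agent.W262.RK.MA

/-!
# All moments of the local count, averaged
-/

set_option autoImplicit false

namespace Pool.Agent.U563.MM

open Finset Pool.Agent.W262.RK Pool.Agent.W762.RK2

section abstractB

variable {J B : Type} [Fintype J] [DecidableEq J] [Fintype B] [DecidableEq B]

/-- the average of `NBB` is bounded by `(log y) ^ |J|` -/
theorem maB [Nonempty B] (c : J → (B → Bool) → B → ℤ) (c0 : ℕ) (hc : ∀ j v b, c j v b ≠ 0) :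
    ∃ z0 : ℕ, ∀ z, z0 ≤ z → ∃ C : ℝ, ∀ y, z < y →
      ∑ s ∈ Tup J z y, NBB c s * ∏ j, gw 1 c0 (s j) ≤ C * (Real.log y) ^ (Fintype.card J) := by
  have hw : 0 < (1 / 2 : ℝ) ^ Fintype.card B ∧ (1 / 2 : ℝ) ^ Fintype.card B ≤ 1 / 2 := by
    refine ⟨by positivity, ?_⟩
    have h1 : 1 ≤ Fintype.card B := Fintype.card_pos
    calc (1 / 2 : ℝ) ^ Fintype.card B ≤ (1 / 2 : ℝ) ^ 1 :=
          pow_le_pow_of_le_one (by norm_num) (by norm_num) h1
      _ = 1 / 2 := pow_one _
  obtain ⟨z0, hz0⟩ := at_thm (IB J B) (fun _ => (1 / 2 : ℝ) ^ Fintype.card B) Lk (κB c) c0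
    ((Fintype.card J : ℕ) : ℝ) (fun _ => hw) (fun i => i.2)
    (fun i => by
      unfold κB
      refine prod_ne_zero_iff.2 fun b _ => ?_
      split_ifs
      · exact hc _ _ _
      · exact one_ne_zero)
    (fun U hU => combB U hU)
  refine ⟨max z0 (∑ j, ∑ v, ∑ b, (c j v b).natAbs), fun z hz => ?_⟩
  obtain ⟨C, hC⟩ := hz0 z (le_trans (le_max_left _ _) hz)
  refine ⟨C, fun y hy => ?_⟩
  have hz2 : ∑ j, ∑ v, ∑ b, (c j v b).natAbs ≤ z := le_trans (le_max_right _ _) hz
  rw [expB c c0 z y hc (fun j v b => by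
    have h1 := single_le_sum (f := fun b => (c j v b).natAbs) (fun _ _ => Nat.zero_le _) (mem_univ b)
    have h2 := single_le_sum (f := fun v => ∑ b, (c j v b).natAbs) (fun _ _ => Nat.zero_le _)
      (mem_univ v)
    have h3 := single_le_sum (f := fun j => ∑ v, ∑ b, (c j v b).natAbs) (fun _ _ => Nat.zero_le _)
      (mem_univ j)
    exact h1.trans (h2.trans (h3.trans hz2)))]
  refine (le_trans (le_abs_self _) (hC y hy)).trans (le_of_eq ?_)
  rw [Real.rpow_natCast]

end abstractB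

section twists

variable {J : Type} [Fintype J] [DecidableEq J]

/-- the constants of the two conditions -/
def K12 (κ : Fin 3 → ℤ) (v w : Bool) (b : Bool) : ℤ :=
  if b = true then
    (if v = true then (if w = true then -κ 2 else κ 0 * κ 2) else (if w = true then -κ 0 else 1))
  else
    (if v = true then (if w = true then κ 1 else κ 0) else (if w = true then κ 0 * κ 1 else 1))

lemma sg0_one (p : ℕ) : sg0 p 1 = false := by
  unfold sg0
  rw [jacobiSym.one_left]
  decide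

lemma LL3_iff (κ : Fin 3 → ℤ) (neg : Bool) (p : ℕ) (v w h g : Bool) :
    LL 3 κ neg p v w h g ↔
      h = xor (neg && v) (sg0 p (K12 κ v w false)) ∧ g = xor (neg && w) (sg0 p (K12 κ v w true)) := by
  unfold LL K12
  cases v <;> cases w <;> cases neg <;> simp [sg0_one]

/-- the constants for the `k`-th moment -/
def cK (k : ℕ) (κ : J → Fin 3 → ℤ) (j : J) (v : Fin k × Bool → Bool) (b : Fin k × Bool) : ℤ :=
  K12 (κ j) (v (b.1, false)) (v (b.1, true)) b.2

omit [Fintype J] [DecidableEq J] in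
lemma cK_ne (k : ℕ) (κ : J → Fin 3 → ℤ) (h : ∀ j l, κ j l ≠ 0) (j : J) (v : Fin k × Bool → Bool)
    (b : Fin k × Bool) : cK k κ j v b ≠ 0 := by
  unfold cK K12
  split_ifs
  · exact neg_ne_zero.2 (h _ _)
  · exact mul_ne_zero (h _ _) (h _ _)
  · exact neg_ne_zero.2 (h _ _)
  · exact one_ne_zero
  · exact h _ _
  · exact h _ _
  · exact mul_ne_zero (h _ _) (h _ _)
  · exact one_ne_zero

lemma mem_filter_i {α : Type*} {s : Finset α} {p : α → Prop} {inst : DecidablePred p} {a : α} :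
    a ∈ @Finset.filter α p inst s ↔ a ∈ s ∧ p a := Finset.mem_filter

open Classical in
/-- the `k`-th power of the number of the pairs is the number of the tuples -/
lemma NL_pow (k : ℕ) (κ : J → Fin 3 → ℤ) (s : J → ℕ) (E : Finset ℕ) :
    (NL (∏ j, s j) (LLs (fun _ => (3 : Fin 4)) κ s E)) ^ k = NLB (cK k κ) s E := by
  set A : Finset (ℕ × ℕ) := ((∏ j, s j).divisors ×ˢ (∏ j, s j).divisors).filter
    (fun d : ℕ × ℕ => ∀ p ∈ (∏ j, s j).primeFactors,
      LLs (fun _ => (3 : Fin 4)) κ s E p (dv p d.1) (dv p d.2) (sgn p d.1) (sgn p d.2)) with hA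
  have h0 : NL (∏ j, s j) (LLs (fun _ => (3 : Fin 4)) κ s E) = A.card := by
    unfold NL
    rw [hA]
    congr
  have h1 : A.card ^ k = (Fintype.piFinset (fun _ : Fin k => A)).card := by
    rw [Fintype.card_piFinset_const]
  rw [h0, h1]
  unfold NLB
  refine Finset.card_bij' (fun f _ => fun b : Fin k × Bool => if b.2 = true then (f b.1).2
    else (f b.1).1) (fun d _ => fun i => (d (i, false), d (i, true))) ?_ ?_ ?_ ?_
  · intro f hf
    rw [Fintype.mem_piFinset] at hf
    refine mem_filter_i.2 ⟨Fintype.mem_piFinset.2 ?_, ?_⟩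
    · rintro ⟨i, b⟩
      have h2 := (mem_filter_i.1 (hf i)).1
      rw [mem_product] at h2
      cases b
      · simpa using h2.1
      · simpa using h2.2
    · intro p hp j hj b
      obtain ⟨i, b⟩ := b
      have h2 := (mem_filter_i.1 (hf i)).2 p hp j hj
      rw [LL3_iff] at h2
      cases b
      · simpa [cK] using h2.1
      · simpa [cK] using h2.2
  · intro d hd
    have hd1 := Fintype.mem_piFinset.1 (mem_filter_i.1 hd).1
    have hd2 := (mem_filter_i.1 hd).2
    rw [Fintype.mem_piFinset]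
    intro i
    refine mem_filter_i.2 ⟨mem_product.2 ⟨hd1 _, hd1 _⟩, fun p hp j hj => ?_⟩
    rw [LL3_iff]
    have h2 := hd2 p hp j hj
    exact ⟨h2 (i, false), h2 (i, true)⟩
  · intro f _
    funext i
    simp
  · intro d _
    funext b
    obtain ⟨i, b⟩ := b
    cases b <;> simp

lemma P3_three (s : J → ℕ) : P3 (fun _ => (3 : Fin 4)) s = (∏ j, s j).primeFactors := by
  unfold P3
  rw [filter_true_of_mem fun _ _ => rfl]

lemma NBk_eq (k : ℕ) (κ : J → Fin 3 → ℤ) (s : J → ℕ) :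
    NBk k (fun _ => (3 : Fin 4)) κ s = NBB (cK k κ) s := by
  unfold NBk NBB
  rw [P3_three]
  congr 1
  refine sum_congr rfl fun E _ => ?_
  rw [← NL_pow]
  push_cast
  rfl

/-- the average of the `k`-th power of the local count is bounded by `(log y) ^ |J|` -/
theorem mak (k : ℕ) (hk : 1 ≤ k) (κ : J → Fin 3 → ℤ) (c0 : ℕ) (hκ : ∀ j l, κ j l ≠ 0) :
    ∃ z0 : ℕ, ∀ z, z0 ≤ z → ∃ C : ℝ, ∀ y, z < y →
      ∑ s ∈ Tup J z y, NBk k (fun _ => (3 : Fin 4)) κ s * ∏ j, gw 1 c0 (s j) ≤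
        C * (Real.log y) ^ (Fintype.card J) := by
  haveI : Nonempty (Fin k × Bool) := ⟨(⟨0, hk⟩, true)⟩
  obtain ⟨z0, hz0⟩ := maB (cK k κ) c0 (cK_ne k κ hκ)
  refine ⟨z0, fun z hz => ?_⟩
  obtain ⟨C, hC⟩ := hz0 z hz
  refine ⟨C, fun y hy => ?_⟩
  refine le_trans (le_of_eq ?_) (hC y hy)
  refine sum_congr rfl fun s _ => ?_
  rw [NBk_eq]

end twists

end Pool.Agent.U563.MM
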