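import Mathlib
import Pool.Agent.W262.RK.NT3
import Pool.Agent.U563.MM.RSB
import Pool.Agent.U563.MM.RVB

/-!
# Summation of a function with a local majorant (Nair, Tenenbaum), with an arbitrary base

Adapted from `Pool/Agent/W262/RK/NT2.lean` and `NT3.lean`, where the base is `4`.
-/

namespace Pool.Agent.U563.MM

open Finset Pool.Agent.W262.RK

variable {J : Type} [Fintype J] [DecidableEq J]

lemma bVB_nn {Q : ℝ} (hQ : 1 ≤ Q) {c z y : ℕ} (hz : c ≤ z) {d : J → ℕ} (hd : d ∈ Tup J z y) :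
    0 ≤ bVB Q c d :=
  prod_nonneg fun j _ => mul_nonneg (by positivity) (div_nonneg (gw_nn hz hd j) (by positivity))

/-- one level -/
lemma levB {Q : ℝ} (hQ : 1 ≤ Q) {α β : J → ℤ} {z : ℕ} {G : (J → ℕ) → ℝ} {R : ℕ → ℝ}
    {C D A1 A2 A3 lam : ℝ} {K y0 : ℕ} (hB : Bg α β z) (hG : ∀ s, 0 ≤ G s) (hR : ∀ t, 0 ≤ R t)
    (hC : 0 ≤ C) (hD : 1 ≤ D) (hA2 : 0 ≤ A2) (hA3 : 0 ≤ A3) (hgr : GR)
    (hlam : lam = 16 * (Real.log D + 1))
    (h1 : ∀ y, z < y → ∑ s ∈ Tup J z y, G s * (∏ j, gw 1 (Fintype.card J) (s j)) *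
      (∏ j, (s j : ℝ)) ^ (lam / Real.log y) ≤ A1 * (Real.log y) ^ (Fintype.card J))
    (h2 : ∀ y, z < y → ∑ v ∈ Tup J z y, bVB Q (Fintype.card J) v *
      (∏ j, (v j : ℝ)) ^ (lam / Real.log y) ≤ A2)
    (h3 : ∀ y Y : ℕ, 3 ≤ y → Y ≤ (y + 1) ^ 2 → ∑ u ∈ Tup J y Y, (∏ j, 1 / (u j : ℝ)) *
      (∏ j, (u j : ℝ)) ^ (lam / Real.log y) ≤ A3)
    (hH : ∀ X y Y k : ℕ, y0 ≤ y → z < y → y ^ K ≤ X → X < (y + 1) ^ k → ∀ s ∈ Tup J z y,
      ∀ v ∈ Tup J z y, ∀ u ∈ Tup J y Y, (∏ j, s j * v j * u j) ^ 8 ≤ X →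
      ∑ t ∈ (Icc 1 X).filter (fun t : ℕ => (∀ j, ff α β t j ≠ 0) ∧ s1 α β z y t = s ∧
        s2 α β z y t = v ∧ ∀ j, (u j : ℤ) ∣ ff α β t j), R t ≤
        C * D ^ k * X * (G s * ∏ j, gw 1 (Fintype.card J) (s j)) *
          (∏ j, Q ^ (v j).primeFactors.card * (gw 1 (Fintype.card J) (v j) / v j)) *
          (∏ j, 1 / (u j : ℝ)) / (Real.log y) ^ (Fintype.card J))
    {X y Y k : ℕ} (hy0 : y0 ≤ y) (hzy : z < y) (hy3 : 3 ≤ y) (hyK : y ^ K ≤ X) (hyk : y ^ k ≤ X)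
    (hk : X < (y + 1) ^ k) (hyY : y ≤ Y) (hY : Y ≤ (y + 1) ^ 2) (hY16 : Y ^ 16 ≤ X) :
    ∑ t ∈ (Icc 1 X).filter (fun t : ℕ => (∀ j, ff α β t j ≠ 0) ∧
      (∏ j, rp z y (ff α β t j)) ^ 8 ≤ X ∧ X < (∏ j, rp z Y (ff α β t j)) ^ 8), R t ≤
      C * A1 * A2 * A3 * X * Real.exp (-k) := by
  classical
  set N := Fintype.card J with hN
  have hX1 : 1 ≤ X := le_trans (Nat.one_le_pow _ _ (by omega)) hyk
  have hXr : (1 : ℝ) ≤ X := by exact_mod_cast hX1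
  have hyr : (3 : ℝ) ≤ y := by exact_mod_cast hy3
  have hlogy : 0 < Real.log y := Real.log_pos (by linarith)
  have hlogD : 0 ≤ Real.log D := Real.log_nonneg hD
  have hlam0 : 0 < lam := by rw [hlam]; linarith
  set δ := lam / Real.log y with hδ
  have hδ0 : 0 < δ := div_pos hlam0 hlogy
  have hcz : N ≤ z := by have := hB.1; omega
  set A := ((Tup J z y ×ˢ Tup J z y) ×ˢ Tup J y Y).filter (fun q =>
    (∏ j, q.1.1 j * q.1.2 j * q.2 j) ^ 8 ≤ X ∧ X < (∏ j, q.1.1 j * q.1.2 j * q.2 j) ^ 16) with hA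
  set S : ((J → ℕ) × (J → ℕ)) × (J → ℕ) → Finset ℕ := fun q => (Icc 1 X).filter (fun t : ℕ =>
    (∀ j, ff α β t j ≠ 0) ∧ s1 α β z y t = q.1.1 ∧ s2 α β z y t = q.1.2 ∧
    ∀ j, (q.2 j : ℤ) ∣ ff α β t j) with hS
  have hcov : ∀ t ∈ (Icc 1 X).filter (fun t : ℕ => (∀ j, ff α β t j ≠ 0) ∧
      (∏ j, rp z y (ff α β t j)) ^ 8 ≤ X ∧ X < (∏ j, rp z Y (ff α β t j)) ^ 8),
      ∃ q ∈ A, t ∈ S q := by
    intro t ht
    rw [mem_filter] at ht
    obtain ⟨ht1, ht0, ht2, ht3⟩ := ht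
    obtain ⟨u, hu, hug, hu8, hu16⟩ := hgr J z y Y X hzy.le hyY hY16 (s1 α β z y t) (s2 α β z y t)
      (fun j => rp y Y (ff α β t j)) (rp_mem hB hzy.le t)
      (by rw [prod_congr rfl (fun j _ => s1_mul_s2 α β z y t j)]; exact ht2)
      (by
        rw [prod_congr rfl (fun j _ => by rw [s1_mul_s2 α β z y t j, ← rp_mul hzy.le hyY])]
        exact ht3)
    refine ⟨((s1 α β z y t, s2 α β z y t), u), ?_, ?_⟩
    · rw [hA, mem_filter, mem_product, mem_product]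
      exact ⟨⟨⟨s1_mem hB t, s2_mem hB t⟩, hu⟩, hu8, hu16⟩
    · rw [hS, mem_filter]
      refine ⟨ht1, ht0, rfl, rfl, fun j => ?_⟩
      have h4 : (rp y Y (ff α β t j) : ℤ) ∣ ff α β t j :=
        prodS_dvd (fun p hp => (mem_PS.1 (mem_filter.1 hp).1).2) (fun p hp => (mem_filter.1 hp).2)
      exact (Int.natCast_dvd_natCast.2 (hug j)).trans h4
  refine (split_sum hR hcov).trans ?_
  -- the bound for each `q`
  set W : ℝ := C * D ^ k * X / (Real.log y) ^ N * (X : ℝ) ^ (-(δ / 16)) with hW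
  have hW0 : 0 ≤ W := by positivity
  have hq : ∀ q ∈ A, ∑ t ∈ S q, R t ≤ W *
      ((G q.1.1 * (∏ j, gw 1 N (q.1.1 j)) * (∏ j, (q.1.1 j : ℝ)) ^ δ) *
        (bVB Q N q.1.2 * (∏ j, (q.1.2 j : ℝ)) ^ δ) *
        ((∏ j, 1 / (q.2 j : ℝ)) * (∏ j, (q.2 j : ℝ)) ^ δ)) := by
    intro q hq
    rw [hA, mem_filter, mem_product, mem_product] at hq
    obtain ⟨⟨⟨hs, hv⟩, hu⟩, hq8, hq16⟩ := hq
    refine (hH X y Y k hy0 hzy hyK hk q.1.1 hs q.1.2 hv q.2 hu hq8).trans ?_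
    have ha : 0 ≤ G q.1.1 * ∏ j, gw 1 N (q.1.1 j) :=
      mul_nonneg (hG _) (prod_nonneg fun j _ => gw_nn hcz hs j)
    have hb : 0 ≤ bVB Q N q.1.2 := bVB_nn hQ hcz hv
    have hc : 0 ≤ ∏ j, 1 / (q.2 j : ℝ) := prod_nonneg fun j _ => by positivity
    have hp1 := prod_cast_ge_one hs
    have hp2 := prod_cast_ge_one hv
    have hp3 := prod_cast_ge_one hu
    have hfac : 1 ≤ (X : ℝ) ^ (-(δ / 16)) * ((∏ j, (q.1.1 j : ℝ)) ^ δ *
        (∏ j, (q.1.2 j : ℝ)) ^ δ * (∏ j, (q.2 j : ℝ)) ^ δ) := by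
      rw [← Real.mul_rpow (by positivity) (by positivity),
        ← Real.mul_rpow (by positivity) (by positivity)]
      set P : ℝ := (∏ j, (q.1.1 j : ℝ)) * (∏ j, (q.1.2 j : ℝ)) * (∏ j, (q.2 j : ℝ)) with hP
      have hP1 : 1 ≤ P := by
        rw [hP]
        exact one_le_mul_of_one_le_of_one_le (one_le_mul_of_one_le_of_one_le hp1 hp2) hp3
      have hPX : (X : ℝ) ≤ P ^ (16 : ℕ) := by
        have h5 : (X : ℝ) ≤ (((∏ j, q.1.1 j * q.1.2 j * q.2 j) ^ 16 : ℕ) : ℝ) := by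
          exact_mod_cast hq16.le
        push_cast at h5
        rw [prod_mul_distrib, prod_mul_distrib] at h5
        exact h5
      have hPd : (X : ℝ) ^ (δ / 16) ≤ P ^ δ := by
        calc (X : ℝ) ^ (δ / 16) ≤ (P ^ (16 : ℕ)) ^ (δ / 16) :=
              Real.rpow_le_rpow (by positivity) hPX (by positivity)
          _ = P ^ δ := by
              rw [← Real.rpow_natCast, ← Real.rpow_mul (by positivity)]
              congr 1
              push_cast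
              ring
      rw [Real.rpow_neg (by positivity)]
      have h6 : 0 < (X : ℝ) ^ (δ / 16) := by positivity
      rw [inv_mul_eq_div, one_le_div h6]
      exact hPd
    have hbase : 0 ≤ C * D ^ k * X / (Real.log y) ^ N * ((G q.1.1 * ∏ j, gw 1 N (q.1.1 j)) *
        bVB Q N q.1.2 * ∏ j, 1 / (q.2 j : ℝ)) :=
      mul_nonneg (by positivity) (mul_nonneg (mul_nonneg ha hb) hc)
    calc C * D ^ k * X * (G q.1.1 * ∏ j, gw 1 N (q.1.1 j)) *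
          (∏ j, Q ^ (q.1.2 j).primeFactors.card * (gw 1 N (q.1.2 j) / q.1.2 j)) *
          (∏ j, 1 / (q.2 j : ℝ)) / (Real.log y) ^ N
        = C * D ^ k * X / (Real.log y) ^ N * ((G q.1.1 * ∏ j, gw 1 N (q.1.1 j)) *
        bVB Q N q.1.2 * ∏ j, 1 / (q.2 j : ℝ)) := by unfold bVB; ring
      _ ≤ C * D ^ k * X / (Real.log y) ^ N * ((G q.1.1 * ∏ j, gw 1 N (q.1.1 j)) *
        bVB Q N q.1.2 * ∏ j, 1 / (q.2 j : ℝ)) * ((X : ℝ) ^ (-(δ / 16)) *
          ((∏ j, (q.1.1 j : ℝ)) ^ δ * (∏ j, (q.1.2 j : ℝ)) ^ δ * (∏ j, (q.2 j : ℝ)) ^ δ)) :=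
          le_mul_of_one_le_right hbase hfac
      _ = _ := by rw [hW]; ring
  refine (sum_le_sum hq).trans ?_
  rw [← mul_sum]
  have hfull : ∑ q ∈ A, ((G q.1.1 * (∏ j, gw 1 N (q.1.1 j)) * (∏ j, (q.1.1 j : ℝ)) ^ δ) *
        (bVB Q N q.1.2 * (∏ j, (q.1.2 j : ℝ)) ^ δ) *
        ((∏ j, 1 / (q.2 j : ℝ)) * (∏ j, (q.2 j : ℝ)) ^ δ)) ≤
      (∑ s ∈ Tup J z y, G s * (∏ j, gw 1 N (s j)) * (∏ j, (s j : ℝ)) ^ δ) *
      (∑ v ∈ Tup J z y, bVB Q N v * (∏ j, (v j : ℝ)) ^ δ) *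
      (∑ u ∈ Tup J y Y, (∏ j, 1 / (u j : ℝ)) * (∏ j, (u j : ℝ)) ^ δ) := by
    rw [sum_mul_sum, ← sum_product', sum_mul_sum, ← sum_product']
    refine sum_le_sum_of_subset_of_nonneg (filter_subset _ _) (fun q hq _ => ?_)
    rw [mem_product, mem_product] at hq
    obtain ⟨⟨hs, hv⟩, hu⟩ := hq
    have hp1 := prod_cast_ge_one hs
    have hp2 := prod_cast_ge_one hv
    have hp3 := prod_cast_ge_one hu
    refine mul_nonneg (mul_nonneg ?_ ?_) ?_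
    · exact mul_nonneg (mul_nonneg (hG _) (prod_nonneg fun j _ => gw_nn hcz hs j)) (by positivity)
    · exact mul_nonneg (bVB_nn hQ hcz hv) (by positivity)
    · exact mul_nonneg (prod_nonneg fun j _ => by positivity) (by positivity)
  have hs0 : 0 ≤ ∑ s ∈ Tup J z y, G s * (∏ j, gw 1 N (s j)) * (∏ j, (s j : ℝ)) ^ δ :=
    sum_nonneg fun s hs => by
      have hp1 := prod_cast_ge_one hs
      exact mul_nonneg (mul_nonneg (hG _) (prod_nonneg fun j _ => gw_nn hcz hs j)) (by positivity)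
  have hv0 : 0 ≤ ∑ v ∈ Tup J z y, bVB Q N v * (∏ j, (v j : ℝ)) ^ δ :=
    sum_nonneg fun v hv => by
      have hp1 := prod_cast_ge_one hv
      exact mul_nonneg (bVB_nn hQ hcz hv) (by positivity)
  have hu0 : 0 ≤ ∑ u ∈ Tup J y Y, (∏ j, 1 / (u j : ℝ)) * (∏ j, (u j : ℝ)) ^ δ :=
    sum_nonneg fun u hu => by
      have hp1 := prod_cast_ge_one hu
      exact mul_nonneg (prod_nonneg fun j _ => by positivity) (by positivity)
  have hbd : (∑ s ∈ Tup J z y, G s * (∏ j, gw 1 N (s j)) * (∏ j, (s j : ℝ)) ^ δ) *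
      (∑ v ∈ Tup J z y, bVB Q N v * (∏ j, (v j : ℝ)) ^ δ) *
      (∑ u ∈ Tup J y Y, (∏ j, 1 / (u j : ℝ)) * (∏ j, (u j : ℝ)) ^ δ) ≤
      (A1 * (Real.log y) ^ N) * A2 * A3 := by
    have e1 := h1 y hzy
    have e2 := h2 y hzy
    have e3 := h3 y Y hy3 hY
    exact mul_le_mul (mul_le_mul e1 e2 hv0 (hs0.trans e1)) e3 hu0
      (mul_nonneg (hs0.trans e1) hA2)
  have hfin := mul_le_mul_of_nonneg_left (hfull.trans hbd) hW0
  refine hfin.trans ?_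
  have hA1 : 0 ≤ A1 := by
    have e1 := hs0.trans (h1 y hzy)
    have e2 : 0 < (Real.log y) ^ N := by positivity
    exact nonneg_of_mul_nonneg_left e1 e2
  -- the exponential saving
  have hexp : D ^ k * (X : ℝ) ^ (-(δ / 16)) ≤ Real.exp (-k) := by
    have hXpos : (0 : ℝ) < X := by linarith
    have hlX : k * Real.log y ≤ Real.log X := by
      rw [← Real.log_pow]
      exact Real.log_le_log (by positivity) (by exact_mod_cast hyk)
    have e1 : D ^ k = Real.exp (k * Real.log D) := by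
      rw [← Real.log_pow, Real.exp_log (by positivity)]
    have e2 : (X : ℝ) ^ (-(δ / 16)) = Real.exp (-(δ / 16) * Real.log X) := by
      rw [Real.rpow_def_of_pos hXpos, mul_comm]
    rw [e1, e2, ← Real.exp_add]
    apply Real.exp_le_exp.2
    have e3 : δ / 16 * (k * Real.log y) ≤ δ / 16 * Real.log X :=
      mul_le_mul_of_nonneg_left hlX (by positivity)
    have e4 : δ / 16 * (k * Real.log y) = k * (Real.log D + 1) := by
      rw [hδ, hlam]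
      field_simp
    rw [e4] at e3
    linarith
  have hL : (Real.log y) ^ N ≠ 0 := by positivity
  calc W * (A1 * (Real.log y) ^ N * A2 * A3)
      = (C * A1 * A2 * A3 * X) * (D ^ k * (X : ℝ) ^ (-(δ / 16))) := by
        rw [hW]; field_simp
    _ ≤ (C * A1 * A2 * A3 * X) * Real.exp (-k) :=
        mul_le_mul_of_nonneg_left hexp (by positivity)

/-- the first level -/
lemma lev0B {Q : ℝ} (hQ : 1 ≤ Q) {α β : J → ℤ} {z : ℕ} {G : (J → ℕ) → ℝ} {R : ℕ → ℝ}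
    {C D A1 A2 lam : ℝ} {K y0 : ℕ} (hB : Bg α β z) (hG : ∀ s, 0 ≤ G s) (hR : ∀ t, 0 ≤ R t)
    (hC : 0 ≤ C) (hD : 1 ≤ D) (hA2 : 0 ≤ A2) (hlam : 0 ≤ lam)
    (h1 : ∀ y, z < y → ∑ s ∈ Tup J z y, G s * (∏ j, gw 1 (Fintype.card J) (s j)) *
      (∏ j, (s j : ℝ)) ^ (lam / Real.log y) ≤ A1 * (Real.log y) ^ (Fintype.card J))
    (h2 : ∀ y, z < y → ∑ v ∈ Tup J z y, bVB Q (Fintype.card J) v *
      (∏ j, (v j : ℝ)) ^ (lam / Real.log y) ≤ A2)
    (hH : ∀ X y Y k : ℕ, y0 ≤ y → z < y → y ^ K ≤ X → X < (y + 1) ^ k → ∀ s ∈ Tup J z y,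
      ∀ v ∈ Tup J z y, ∀ u ∈ Tup J y Y, (∏ j, s j * v j * u j) ^ 8 ≤ X →
      ∑ t ∈ (Icc 1 X).filter (fun t : ℕ => (∀ j, ff α β t j ≠ 0) ∧ s1 α β z y t = s ∧
        s2 α β z y t = v ∧ ∀ j, (u j : ℤ) ∣ ff α β t j), R t ≤
        C * D ^ k * X * (G s * ∏ j, gw 1 (Fintype.card J) (s j)) *
          (∏ j, Q ^ (v j).primeFactors.card * (gw 1 (Fintype.card J) (v j) / v j)) *
          (∏ j, 1 / (u j : ℝ)) / (Real.log y) ^ (Fintype.card J))
    {X y k : ℕ} (hy0 : y0 ≤ y) (hzy : z < y) (hy3 : 3 ≤ y) (hyK : y ^ K ≤ X)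
    (hk : X < (y + 1) ^ k) :
    ∑ t ∈ (Icc 1 X).filter (fun t : ℕ => (∀ j, ff α β t j ≠ 0) ∧
      (∏ j, rp z y (ff α β t j)) ^ 8 ≤ X), R t ≤ C * D ^ k * A1 * A2 * X := by
  classical
  set N := Fintype.card J with hN
  have hyr : (3 : ℝ) ≤ y := by exact_mod_cast hy3
  have hlogy : 0 < Real.log y := Real.log_pos (by linarith)
  set δ := lam / Real.log y with hδ
  have hδ0 : 0 ≤ δ := div_nonneg hlam hlogy.le
  have hcz : N ≤ z := by have := hB.1; omega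
  set A := (Tup J z y ×ˢ Tup J z y).filter (fun q => (∏ j, q.1 j * q.2 j) ^ 8 ≤ X) with hA
  set S : (J → ℕ) × (J → ℕ) → Finset ℕ := fun q => (Icc 1 X).filter (fun t : ℕ =>
    (∀ j, ff α β t j ≠ 0) ∧ s1 α β z y t = q.1 ∧ s2 α β z y t = q.2 ∧
    ∀ j, (((fun _ => 1 : J → ℕ) j : ℕ) : ℤ) ∣ ff α β t j) with hS
  have hcov : ∀ t ∈ (Icc 1 X).filter (fun t : ℕ => (∀ j, ff α β t j ≠ 0) ∧
      (∏ j, rp z y (ff α β t j)) ^ 8 ≤ X), ∃ q ∈ A, t ∈ S q := by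
    intro t ht
    rw [mem_filter] at ht
    obtain ⟨ht1, ht0, ht2⟩ := ht
    refine ⟨(s1 α β z y t, s2 α β z y t), ?_, ?_⟩
    · rw [hA, mem_filter, mem_product]
      refine ⟨⟨s1_mem hB t, s2_mem hB t⟩, ?_⟩
      rw [prod_congr rfl (fun j _ => s1_mul_s2 α β z y t j)]
      exact ht2
    · rw [hS, mem_filter]
      refine ⟨ht1, ht0, rfl, rfl, fun j => ?_⟩
      simp
  refine (split_sum hR hcov).trans ?_
  set W : ℝ := C * D ^ k * X / (Real.log y) ^ N with hW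
  have hW0 : 0 ≤ W := by positivity
  have hq : ∀ q ∈ A, ∑ t ∈ S q, R t ≤ W *
      ((G q.1 * (∏ j, gw 1 N (q.1 j)) * (∏ j, (q.1 j : ℝ)) ^ δ) *
        (bVB Q N q.2 * (∏ j, (q.2 j : ℝ)) ^ δ)) := by
    intro q hq
    rw [hA, mem_filter, mem_product] at hq
    obtain ⟨⟨hs, hv⟩, hq8⟩ := hq
    refine (hH X y y k hy0 hzy hyK hk q.1 hs q.2 hv (fun _ => 1) (one_mem_Tup _ _)
      (by simpa using hq8)).trans ?_
    have ha : 0 ≤ G q.1 * ∏ j, gw 1 N (q.1 j) :=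
      mul_nonneg (hG _) (prod_nonneg fun j _ => gw_nn hcz hs j)
    have hb : 0 ≤ bVB Q N q.2 := bVB_nn hQ hcz hv
    have hp1 := Real.one_le_rpow (prod_cast_ge_one hs) hδ0
    have hp2 := Real.one_le_rpow (prod_cast_ge_one hv) hδ0
    calc C * D ^ k * X * (G q.1 * ∏ j, gw 1 N (q.1 j)) *
          (∏ j, Q ^ (q.2 j).primeFactors.card * (gw 1 N (q.2 j) / q.2 j)) *
          (∏ j : J, 1 / (((fun _ => 1 : J → ℕ) j : ℕ) : ℝ)) / (Real.log y) ^ N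
        = W * ((G q.1 * ∏ j, gw 1 N (q.1 j)) * bVB Q N q.2) := by
          rw [hW]; unfold bVB; simp only [Nat.cast_one, div_one, prod_const_one]; ring
      _ ≤ W * (((G q.1 * ∏ j, gw 1 N (q.1 j)) * (∏ j, (q.1 j : ℝ)) ^ δ) *
            (bVB Q N q.2 * (∏ j, (q.2 j : ℝ)) ^ δ)) :=
          mul_le_mul_of_nonneg_left (mul_le_mul (le_mul_of_one_le_right ha hp1)
            (le_mul_of_one_le_right hb hp2) hb (mul_nonneg ha (by linarith))) hW0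
      _ = _ := by ring
  refine (sum_le_sum hq).trans ?_
  rw [← mul_sum]
  have hfull : ∑ q ∈ A, ((G q.1 * (∏ j, gw 1 N (q.1 j)) * (∏ j, (q.1 j : ℝ)) ^ δ) *
        (bVB Q N q.2 * (∏ j, (q.2 j : ℝ)) ^ δ)) ≤
      (∑ s ∈ Tup J z y, G s * (∏ j, gw 1 N (s j)) * (∏ j, (s j : ℝ)) ^ δ) *
      (∑ v ∈ Tup J z y, bVB Q N v * (∏ j, (v j : ℝ)) ^ δ) := by
    rw [sum_mul_sum, ← sum_product']
    refine sum_le_sum_of_subset_of_nonneg (filter_subset _ _) (fun q hq _ => ?_)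
    rw [mem_product] at hq
    obtain ⟨hs, hv⟩ := hq
    have hp1 := prod_cast_ge_one hs
    have hp2 := prod_cast_ge_one hv
    refine mul_nonneg ?_ ?_
    · exact mul_nonneg (mul_nonneg (hG _) (prod_nonneg fun j _ => gw_nn hcz hs j)) (by positivity)
    · exact mul_nonneg (bVB_nn hQ hcz hv) (by positivity)
  have hs0 : 0 ≤ ∑ s ∈ Tup J z y, G s * (∏ j, gw 1 N (s j)) * (∏ j, (s j : ℝ)) ^ δ :=
    sum_nonneg fun s hs => by
      have hp1 := prod_cast_ge_one hs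
      exact mul_nonneg (mul_nonneg (hG _) (prod_nonneg fun j _ => gw_nn hcz hs j)) (by positivity)
  have hv0 : 0 ≤ ∑ v ∈ Tup J z y, bVB Q N v * (∏ j, (v j : ℝ)) ^ δ :=
    sum_nonneg fun v hv => by
      have hp1 := prod_cast_ge_one hv
      exact mul_nonneg (bVB_nn hQ hcz hv) (by positivity)
  have hbd : (∑ s ∈ Tup J z y, G s * (∏ j, gw 1 N (s j)) * (∏ j, (s j : ℝ)) ^ δ) *
      (∑ v ∈ Tup J z y, bVB Q N v * (∏ j, (v j : ℝ)) ^ δ) ≤ (A1 * (Real.log y) ^ N) * A2 :=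
    mul_le_mul (h1 y hzy) (h2 y hzy) hv0 (hs0.trans (h1 y hzy))
  refine (mul_le_mul_of_nonneg_left (hfull.trans hbd) hW0).trans (le_of_eq ?_)
  have hL : (Real.log y) ^ N ≠ 0 := by positivity
  rw [hW]; field_simp

/-- NT with base `Q` -/
theorem ntB (hru : RU) (hgr : GR) (J : Type) [Fintype J] [DecidableEq J] (α β : J → ℤ) (z : ℕ)
    (Q : ℝ) (G : (J → ℕ) → ℝ) (R : ℕ → ℝ) (C C' D : ℝ) (K y0 : ℕ) (hQ : 1 ≤ Q) (hB : Bg α β z)
    (hG : ∀ s, 0 ≤ G s) (hR : ∀ t, 0 ≤ R t) (hC : 0 ≤ C) (hD : 1 ≤ D) (_hK : 1 ≤ K)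
    (hsub : ∀ y, z < y → ∀ s e : J → ℕ, (fun j => s j * e j) ∈ Tup J z y →
      G (fun j => s j * e j) ≤ Q ^ (∑ j, (e j).primeFactors.card) * G s)
    (havg : ∀ y, z < y → ∑ s ∈ Tup J z y, G s * ∏ j, gw 1 (Fintype.card J) (s j) ≤
      C' * (Real.log y) ^ (Fintype.card J))
    (hH : ∀ X y Y k : ℕ, y0 ≤ y → z < y → y ^ K ≤ X → X < (y + 1) ^ k → ∀ s ∈ Tup J z y,
      ∀ v ∈ Tup J z y, ∀ u ∈ Tup J y Y, (∏ j, s j * v j * u j) ^ 8 ≤ X →
      ∑ t ∈ (Icc 1 X).filter (fun t : ℕ => (∀ j, ff α β t j ≠ 0) ∧ s1 α β z y t = s ∧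
        s2 α β z y t = v ∧ ∀ j, (u j : ℤ) ∣ ff α β t j), R t ≤
        C * D ^ k * X * (G s * ∏ j, gw 1 (Fintype.card J) (s j)) *
          (∏ j, Q ^ (v j).primeFactors.card * (gw 1 (Fintype.card J) (v j) / v j)) *
          (∏ j, 1 / (u j : ℝ)) / (Real.log y) ^ (Fintype.card J)) :
    ∃ C2 : ℝ, ∀ X : ℕ, ∑ t ∈ (Icc 1 X).filter (fun t : ℕ => ∀ j, ff α β t j ≠ 0), R t ≤
      C2 * X := by
  classical
  have hlogD : 0 ≤ Real.log D := Real.log_nonneg hD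
  set lam : ℝ := 16 * (Real.log D + 1) with hlam
  have hlam0 : 0 ≤ lam := by rw [hlam]; linarith
  obtain ⟨A1, hA1⟩ := rsB J Q hQ z G C' lam hB.1 hlam0 hG hsub havg
  obtain ⟨A2', hA2'⟩ := rvB J Q hQ z lam hB.1 hlam0
  obtain ⟨A3', hA3'⟩ := hru J lam hlam0
  set A2 := max A2' 0 with hA2d
  set A3 := max A3' 0 with hA3d
  have hA2 : ∀ y, z < y → ∑ v ∈ Tup J z y, bVB Q (Fintype.card J) v *
      (∏ j, (v j : ℝ)) ^ (lam / Real.log y) ≤ A2 := fun y hy =>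
    (hA2' y hy).trans (le_max_left _ _)
  have hA3 : ∀ y Y : ℕ, 3 ≤ y → Y ≤ (y + 1) ^ 2 → ∑ u ∈ Tup J y Y, (∏ j, 1 / (u j : ℝ)) *
      (∏ j, (u j : ℝ)) ^ (lam / Real.log y) ≤ A3 := fun y Y h1 h2 =>
    (hA3' y Y h1 h2).trans (le_max_left _ _)
  have hA20 : 0 ≤ A2 := le_max_right _ _
  have hA30 : 0 ≤ A3 := le_max_right _ _
  -- the constant `A1` is nonnegative
  have hcz : Fintype.card J ≤ z := by have := hB.1; omega
  have hA10 : 0 ≤ A1 := by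
    have h1 := hA1 (z + 2) (by omega)
    have h2 : 0 ≤ ∑ s ∈ Tup J z (z + 2), G s * (∏ j, gw 1 (Fintype.card J) (s j)) *
        (∏ j, (s j : ℝ)) ^ (lam / Real.log ((z + 2 : ℕ) : ℝ)) := sum_nonneg fun s hs => by
      have hp1 := prod_cast_ge_one hs
      exact mul_nonneg (mul_nonneg (hG _) (prod_nonneg fun j _ => gw_nn hcz hs j)) (by positivity)
    have h3 : 0 < (Real.log ((z + 2 : ℕ) : ℝ)) ^ (Fintype.card J) := by
      apply pow_pos
      apply Real.log_pos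
      exact_mod_cast (by omega : 1 < z + 2)
    exact nonneg_of_mul_nonneg_left (h2.trans h1) h3
  set K0 : ℕ := K + 16 with hK0
  have hK01 : 1 ≤ K0 := by omega
  set Ys : ℕ := y0 + z + 3 with hYs
  set M : ℕ := PP z (Ys ^ 2) with hM
  set X0 : ℕ := Ys ^ K0 + M ^ 8 with hX0
  set B0 : ℝ := C * D ^ K0 * A1 * A2 with hB0
  set B1 : ℝ := C * A1 * A2 * A3 with hB1
  have hB00 : 0 ≤ B0 := by positivity
  have hB10 : 0 ≤ B1 := by positivity
  set R0 : ℝ := ∑ t ∈ Icc 1 X0, R t with hR0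
  have hR00 : 0 ≤ R0 := sum_nonneg fun t _ => hR t
  refine ⟨R0 + B0 + B1 * 2, fun X => ?_⟩
  rcases Nat.eq_zero_or_pos X with hX | hX
  · subst hX; simp
  have hXr : (1 : ℝ) ≤ X := by exact_mod_cast hX
  rcases Nat.lt_or_ge X X0 with hXX | hXX
  · have h1 : ∑ t ∈ (Icc 1 X).filter (fun t : ℕ => ∀ j, ff α β t j ≠ 0), R t ≤ R0 :=
      sum_le_sum_of_subset_of_nonneg ((filter_subset _ _).trans (Icc_subset_Icc le_rfl hXX.le))
        (fun t _ _ => hR t)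
    nlinarith
  -- the last level
  have hex : ∃ i, yy K0 X (i + 1) < Ys := by
    refine ⟨X, ?_⟩
    by_contra hcon
    have h1 : 2 ≤ yy K0 X (X + 1) := by omega
    have h2 := (yy_pow hK01 hX (X + 1)).2
    have h3 : 2 ^ X ≤ (yy K0 X (X + 1)) ^ (K0 * 2 ^ (X + 1)) := by
      refine (Nat.pow_le_pow_left h1 X).trans (Nat.pow_le_pow_right (by omega) ?_)
      have h4 : X < 2 ^ X := Nat.lt_two_pow_self
      have h5 : 2 ^ (X + 1) = 2 * 2 ^ X := by rw [pow_succ, mul_comm]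
      nlinarith
    have h4 : X < 2 ^ X := Nat.lt_two_pow_self
    exact absurd (h3.trans h2) (not_le.2 h4)
  set I := Nat.find hex with hI
  have hI1 : yy K0 X (I + 1) < Ys := Nat.find_spec hex
  have hIge : ∀ i, i ≤ I → Ys ≤ yy K0 X i := by
    intro i hi
    rcases Nat.eq_zero_or_pos i with h | h
    · subst h
      apply le_yy hK01
      rw [pow_zero, mul_one]
      exact le_trans (Nat.le_add_right _ _) hXX
    · have h2 := Nat.find_min hex (m := i - 1) (by omega)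
      rw [show i - 1 + 1 = i by omega] at h2
      omega
  -- the level sets
  set T0 := (Icc 1 X).filter (fun t : ℕ => (∀ j, ff α β t j ≠ 0) ∧
      (∏ j, rp z (yy K0 X 0) (ff α β t j)) ^ 8 ≤ X) with hT0
  set T : ℕ → Finset ℕ := fun i => (Icc 1 X).filter (fun t : ℕ => (∀ j, ff α β t j ≠ 0) ∧
      (∏ j, rp z (yy K0 X (i + 1)) (ff α β t j)) ^ 8 ≤ X ∧
      X < (∏ j, rp z (yy K0 X i) (ff α β t j)) ^ 8) with hT
  have hlast : ∀ t : ℕ, (∏ j, rp z (yy K0 X I) (ff α β t j)) ^ 8 ≤ X := by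
    intro t
    have h1 : ∏ j, rp z (yy K0 X I) (ff α β t j) ∣ PP z (yy K0 X I) :=
      Tup_prod_dvd (rp_mem hB le_rfl t)
    have h2 : yy K0 X I ≤ Ys ^ 2 :=
      (yy_sq hK01 hX I).le.trans (Nat.pow_le_pow_left (by omega) 2)
    have h3 : PP z (yy K0 X I) ∣ M := by
      apply prod_dvd_prod_of_subset
      intro p hp
      rw [mem_PS] at hp ⊢
      exact ⟨⟨hp.1.1, hp.1.2.trans h2⟩, hp.2⟩
    have h4 : ∏ j, rp z (yy K0 X I) (ff α β t j) ≤ M :=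
      Nat.le_of_dvd (Nat.pos_of_ne_zero (PP_ne_zero _ _)) (h1.trans h3)
    have h5 := Nat.pow_le_pow_left h4 8
    exact h5.trans (le_trans (Nat.le_add_left _ _) hXX)
  have hcov : (Icc 1 X).filter (fun t : ℕ => ∀ j, ff α β t j ≠ 0) ⊆
      T0 ∪ (range I).biUnion T := by
    intro t ht
    rw [mem_filter] at ht
    have hex2 : ∃ i, (∏ j, rp z (yy K0 X i) (ff α β t j)) ^ 8 ≤ X := ⟨I, hlast t⟩
    have hle : Nat.find hex2 ≤ I := Nat.find_min' hex2 (hlast t)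
    rw [mem_union]
    rcases Nat.eq_zero_or_pos (Nat.find hex2) with h | h
    · left
      rw [hT0, mem_filter]
      refine ⟨ht.1, ht.2, ?_⟩
      have := Nat.find_spec hex2
      rwa [h] at this
    · right
      rw [mem_biUnion]
      refine ⟨Nat.find hex2 - 1, mem_range.2 (by omega), ?_⟩
      rw [hT, mem_filter, show Nat.find hex2 - 1 + 1 = Nat.find hex2 by omega]
      refine ⟨ht.1, ht.2, Nat.find_spec hex2, ?_⟩
      have := Nat.find_min hex2 (m := Nat.find hex2 - 1) (by omega)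
      omega
  have hT0b : ∑ t ∈ T0, R t ≤ B0 * X := by
    have hz0 := hIge 0 (Nat.zero_le _)
    have hp := yy_pow hK01 hX 0
    have hl := yy_lt (X := X) hK01 0
    rw [pow_zero, mul_one] at hp hl
    have h1 := lev0B hQ hB hG hR hC hD hA20 hlam0 hA1 hA2 hH (X := X) (y := yy K0 X 0) (k := K0)
      (by omega) (by omega) (by omega)
      (le_trans (Nat.pow_le_pow_right hp.1 (by omega)) hp.2) hl
    exact h1
  have hTb : ∀ i ∈ range I, ∑ t ∈ T i, R t ≤ B1 * X * (1 / 2) ^ i := by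
    intro i hi
    rw [mem_range] at hi
    have hz0 := hIge (i + 1) (by omega)
    have hp := yy_pow hK01 hX (i + 1)
    have hp' := yy_pow hK01 hX i
    have hl := yy_lt (X := X) hK01 (i + 1)
    have hk1 : K0 ≤ K0 * 2 ^ (i + 1) := Nat.le_mul_of_pos_right _ (by positivity)
    have hk2 : K0 ≤ K0 * 2 ^ i := Nat.le_mul_of_pos_right _ (by positivity)
    have h1 := levB hQ hB hG hR hC hD hA20 hA30 hgr hlam hA1 hA2 hA3 hH (X := X)
      (y := yy K0 X (i + 1)) (Y := yy K0 X i) (k := K0 * 2 ^ (i + 1))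
      (by omega) (by omega) (by omega)
      (le_trans (Nat.pow_le_pow_right hp.1 (by omega)) hp.2) hp.2 hl
      (yy_anti hK01 hX i) (yy_sq hK01 hX i).le
      (le_trans (Nat.pow_le_pow_right hp'.1 (by omega)) hp'.2)
    refine h1.trans ?_
    refine mul_le_mul_of_nonneg_left ?_ (by positivity)
    have h2 : (i : ℝ) ≤ ((K0 * 2 ^ (i + 1) : ℕ) : ℝ) := by
      have h3 : i < 2 ^ i := Nat.lt_two_pow_self
      have h4 : 2 ^ (i + 1) = 2 * 2 ^ i := by rw [pow_succ, mul_comm]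
      exact_mod_cast (by nlinarith : i ≤ K0 * 2 ^ (i + 1))
    calc Real.exp (-((K0 * 2 ^ (i + 1) : ℕ) : ℝ)) ≤ Real.exp (-(i : ℝ)) :=
          Real.exp_le_exp.2 (by linarith)
      _ = (Real.exp (-1)) ^ i := by rw [← Real.exp_nat_mul]; congr 1; ring
      _ ≤ (1 / 2) ^ i := by
          apply pow_le_pow_left₀ (Real.exp_pos _).le
          rw [Real.exp_neg, ← one_div]
          apply one_div_le_one_div_of_le (by norm_num)
          have := Real.exp_one_gt_d9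
          linarith
  have hgeo : ∑ i ∈ range I, ((1 : ℝ) / 2) ^ i ≤ 2 := by
    rw [geom_sum_eq (by norm_num)]
    have h1 : (0 : ℝ) ≤ (1 / 2 : ℝ) ^ I := by positivity
    rw [div_le_iff_of_neg (by norm_num)]
    linarith
  calc ∑ t ∈ (Icc 1 X).filter (fun t : ℕ => ∀ j, ff α β t j ≠ 0), R t
      ≤ ∑ t ∈ T0 ∪ (range I).biUnion T, R t :=
        sum_le_sum_of_subset_of_nonneg hcov (fun t _ _ => hR t)
    _ ≤ ∑ t ∈ T0, R t + ∑ t ∈ (range I).biUnion T, R t := by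
        rw [← sum_union_inter]
        exact le_add_of_nonneg_right (sum_nonneg fun t _ => hR t)
    _ ≤ ∑ t ∈ T0, R t + ∑ i ∈ range I, ∑ t ∈ T i, R t := by
        gcongr
        apply split_sum hR
        intro t ht
        rw [mem_biUnion] at ht
        exact ht
    _ ≤ B0 * X + ∑ i ∈ range I, B1 * X * (1 / 2) ^ i := add_le_add hT0b (sum_le_sum hTb)
    _ ≤ B0 * X + B1 * X * 2 := by
        rw [← mul_sum]
        gcongr
    _ ≤ (R0 + B0 + B1 * 2) * X := by nlinarith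

end Pool.Agent.U563.MM
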