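import Mathlib
import Pool.Agent.U563.MM.Mom
import Pool.Agent.U563.MM.NTB
import Pool.Agent.W262.RK.F4c
import Pool.Agent.W358.RK2.SVR
import Pool.Agent.W358.RK2.GR

/-!
# The average of the `k`-th power of `2 ^ rank` in families of quadratic twists

Adapted from `Pool/Agent/W262/RK/F4b.lean`, `F4c.lean` (the case `k = 1`, more general families).
-/

set_option autoImplicit false

namespace Pool.Agent.U563.MM

open Finset Pool.Agent.W262.RK

variable {J : Type} [Fintype J] [DecidableEq J]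

/-- the average of `2 ^ (m * rank)` for products of linear forms -/
theorem avgk (m : ℕ) (hm : 1 ≤ m) (cls : J → Fin 4) (hcls : cls = fun _ => 3)
    (a : Fin 3 → ℤ) (α β : J → ℤ) (ha : ∀ k, a k ≠ 0) (hα : ∀ j, α j ≠ 0)
    (hR : ∀ j l, j ≠ l → Res α β j l ≠ 0)
    (hF : ∀ t : ℤ, F4 cls a α β t 0 - F4 cls a α β t 1 = F4 cls a α β t 2) :
    ∃ C : ℝ, ∀ X : ℕ, ∑ t ∈ (Icc 1 X).filter (fun t : ℕ => ∀ j, ff α β t j ≠ 0),
      ((2 : ℝ) ^ Module.finrank ℤ
        (EAB (F4 cls a α β t 0) (F4 cls a α β t 1)).toAffine.Point) ^ m ≤ C * X := by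
  classical
  have hdesc : DESC4 := Pool.Agent.W214.RK2.desc4
  have hxc : XCL := Pool.Agent.W342.RK2.xcl
  have hloc : LOCL := Pool.Agent.W342.RK2.locl
  have hcnt : CNT4 := Pool.Agent.W372.RK2.cnt4_of Pool.Agent.W358.RK2.svr
  set κ := kap4 cls a α β with hκdef
  have hκ0 : ∀ j k, κ j k ≠ 0 := kap4_ne cls a α β hα ha hR
  set N := Fintype.card J with hN
  obtain ⟨z0, hz0⟩ := mak m hm κ N hκ0
  set z : ℕ := z0 + (2 * N + 2) + ∑ k, (a k).natAbs + ∑ j, (α j).natAbs +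
    ∑ j, ∑ l, (Res α β j l).natAbs + ∑ j, ∑ k, (κ j k).natAbs with hz
  have hB : Big4 a α β z := by
    refine ⟨⟨by omega, fun p hp hzp => ⟨fun j h => ?_, fun j l hjl h => ?_⟩⟩,
      fun p hp hzp k h => ?_⟩
    · have h1 := Nat.le_of_dvd (Int.natAbs_pos.2 (hα j)) (Int.natCast_dvd.1 h)
      have h2 := single_le_sum (f := fun j => (α j).natAbs) (fun _ _ => Nat.zero_le _) (mem_univ j)
      omega
    · have h1 := Nat.le_of_dvd (Int.natAbs_pos.2 (hR j l hjl)) (Int.natCast_dvd.1 h)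
      have h2 := single_le_sum (f := fun l => (Res α β j l).natAbs) (fun _ _ => Nat.zero_le _)
        (mem_univ l)
      have h3 := single_le_sum (f := fun j => ∑ l, (Res α β j l).natAbs) (fun _ _ => Nat.zero_le _)
        (mem_univ j)
      omega
    · have h1 := Nat.le_of_dvd (Int.natAbs_pos.2 (ha k)) (Int.natCast_dvd.1 h)
      have h2 := single_le_sum (f := fun k => (a k).natAbs) (fun _ _ => Nat.zero_le _) (mem_univ k)
      omega
  have hκz : ∀ j k, (κ j k).natAbs ≤ z := by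
    intro j k
    have h1 := single_le_sum (f := fun k => (κ j k).natAbs) (fun _ _ => Nat.zero_le _) (mem_univ k)
    have h2 := single_le_sum (f := fun j => ∑ k, (κ j k).natAbs) (fun _ _ => Nat.zero_le _)
      (mem_univ j)
    omega
  have hz2 : 2 ≤ z := by omega
  obtain ⟨C', hC'⟩ := hz0 z (by omega)
  obtain ⟨C, K, y0, hC0, hK1, hcn⟩ := hcnt J α β cls z hB.1
  set y1 : ℕ := y0 + ∑ j, ((α j).natAbs + (β j).natAbs) + 1 with hy1
  have h4m : (1 : ℝ) ≤ 4 ^ m := one_le_pow₀ (by norm_num)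
  have hC'' : ∀ y, z < y → ∑ s ∈ Tup J z y, NBk m cls κ s * ∏ j, gw 1 (Fintype.card J) (s j) ≤
      C' * (Real.log y) ^ (Fintype.card J) := by
    rw [hcls]
    exact hC'
  refine ntB Pool.Agent.W591.RK2.ru Pool.Agent.W358.RK2.gr J α β z (4 ^ m) (NBk m cls κ)
        (fun t => ((2 : ℝ) ^ Module.finrank ℤ
        (EAB (F4 cls a α β t 0) (F4 cls a α β t 1)).toAffine.Point) ^ m) (C * (4 ^ (z + 2)) ^ m) C'
        ((16 ^ N) ^ m) K y1 h4m hB.1 (fun s => ?_) (fun t => by positivity) (by positivity)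
        (one_le_pow₀ (one_le_pow₀ (by norm_num))) hK1
        (fun y hy s e hse => subk Pool.Agent.W125.RK2.sub4 hxc m cls κ z y hz2 hκ0 hκz s e hse)
        hC'' ?_
  · unfold NBk
    exact mul_nonneg (by positivity) (sum_nonneg fun _ _ => pow_nonneg (Nat.cast_nonneg _) _)
  intro X y Y k hy0 hzy hyK hk s hs v hv u hu h8
  have hy00 : y0 ≤ y := by omega
  have hyX : y ≤ X := le_trans (Nat.le_self_pow (by omega) y) hyK
  have hX1 : 1 ≤ X := by omega
  set S := (Icc 1 X).filter (fun t : ℕ => (∀ j, ff α β t j ≠ 0) ∧ s1 α β z y t = s ∧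
    s2 α β z y t = v ∧ ∀ j, (u j : ℤ) ∣ ff α β t j) with hS
  set g : Finset ℕ → ℝ := fun E => (NL (∏ j, s j) (LLs cls κ s E) : ℝ) ^ m with hg
  have hg0 : ∀ E, 0 ≤ g E := fun E => pow_nonneg (Nat.cast_nonneg _) _
  have h1 : ∀ t ∈ S, ((2 : ℝ) ^ Module.finrank ℤ
      (EAB (F4 cls a α β t 0) (F4 cls a α β t 1)).toAffine.Point) ^ m ≤
      (4 ^ (z + 2)) ^ m * ((16 ^ N) ^ m) ^ k * (4 ^ m) ^ (∑ j, (v j).primeFactors.card) *
        g (neg3 cls α β t s) := by
    intro t ht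
    rw [hS, mem_filter] at ht
    obtain ⟨ht1, ht0, hts, htv, _⟩ := ht
    have hr := rank4 hdesc hxc hloc (X := X) (y := y) (k := k) hB ha hκ0 hκz (hF t) ht0 (fun j => by
        unfold ff
        have h3 := Int.natAbs_add_le (α j * (t : ℤ)) (β j)
        rw [Int.natAbs_mul, Int.natAbs_natCast] at h3
        have h4 := single_le_sum (f := fun j => (α j).natAbs + (β j).natAbs)
          (fun _ _ => Nat.zero_le _) (mem_univ j)
        have h5 := (mem_Icc.1 ht1).2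
        have h6 : (α j).natAbs + (β j).natAbs ≤ X := by omega
        nlinarith [Nat.zero_le (α j).natAbs, Nat.zero_le (β j).natAbs,
          Nat.mul_le_mul_left (α j).natAbs h5, Nat.mul_le_mul_right X h6,
          Nat.le_mul_of_pos_right (β j).natAbs (show 0 < X by omega)]) hX1 (by omega) hk
    rw [hts, htv] at hr
    have hr2 : (2 : ℝ) ^ Module.finrank ℤ
        (EAB (F4 cls a α β t 0) (F4 cls a α β t 1)).toAffine.Point ≤
        4 ^ (z + 2) * (16 ^ N) ^ k * 4 ^ (∑ j, (v j).primeFactors.card) *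
          (NL (∏ j, s j) (LLs cls κ s (neg3 cls α β t s)) : ℝ) := by
      exact_mod_cast hr
    calc ((2 : ℝ) ^ Module.finrank ℤ
          (EAB (F4 cls a α β t 0) (F4 cls a α β t 1)).toAffine.Point) ^ m
        ≤ (4 ^ (z + 2) * (16 ^ N) ^ k * 4 ^ (∑ j, (v j).primeFactors.card) *
          (NL (∏ j, s j) (LLs cls κ s (neg3 cls α β t s)) : ℝ)) ^ m :=
          pow_le_pow_left₀ (by positivity) hr2 m
      _ = _ := by
          rw [mul_pow, mul_pow, mul_pow, ← pow_mul (16 ^ N : ℝ) k m, mul_comm k m,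
            pow_mul (16 ^ N : ℝ) m k, ← pow_mul (4 : ℝ) (∑ j, (v j).primeFactors.card) m,
            mul_comm (∑ j, (v j).primeFactors.card) m, pow_mul (4 : ℝ) m]
  have hneg : ∀ t ∈ S, neg3 cls α β t s ∈ (P3 cls s).powerset := by
    intro t _
    rw [mem_powerset]
    exact filter_subset _ _
  have h2 : ∑ t ∈ S, g (neg3 cls α β t s) =
      ∑ E ∈ (P3 cls s).powerset, ((S.filter (fun t : ℕ => neg3 cls α β t s = E)).card : ℝ) * g E := by
    rw [← sum_fiberwise_of_maps_to hneg]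
    refine sum_congr rfl fun E _ => ?_
    rw [← nsmul_eq_mul, ← sum_const]
    refine sum_congr rfl fun t ht => ?_
    rw [(mem_filter.1 ht).2]
  set Q : ℝ := C * X * (1 / 2) ^ (P3 cls s).card * (∏ j, gw 1 N (s j)) *
        (∏ j, gw 1 N (v j) / v j) * (∏ j, 1 / (u j : ℝ)) / (Real.log y) ^ N with hQ
  have h3 : ∀ E ∈ (P3 cls s).powerset,
      ((S.filter (fun t : ℕ => neg3 cls α β t s = E)).card : ℝ) * g E ≤ Q * g E := by
    intro E _
    refine mul_le_mul_of_nonneg_right ?_ (hg0 E)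
    refine le_trans ?_ (hcn X y Y hy00 hzy hyK s hs v hv u hu h8 E)
    have h4 : S.filter (fun t : ℕ => neg3 cls α β t s = E) ⊆
        (Icc 1 X).filter (fun t : ℕ => s1 α β z y t = s ∧ s2 α β z y t = v ∧
          (∀ j, (u j : ℤ) ∣ ff α β t j) ∧ neg3 cls α β t s = E) := by
      intro t ht
      rw [mem_filter, hS, mem_filter] at ht
      rw [mem_filter]
      exact ⟨ht.1.1, ht.1.2.2.1, ht.1.2.2.2.1, ht.1.2.2.2.2, ht.2⟩
    exact_mod_cast card_le_card h4
  calc ∑ t ∈ S, ((2 : ℝ) ^ Module.finrank ℤ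
          (EAB (F4 cls a α β t 0) (F4 cls a α β t 1)).toAffine.Point) ^ m
      ≤ ∑ t ∈ S, (4 ^ (z + 2)) ^ m * ((16 ^ N) ^ m) ^ k *
          (4 ^ m) ^ (∑ j, (v j).primeFactors.card) *
          g (neg3 cls α β t s) := sum_le_sum h1
    _ = (4 ^ (z + 2)) ^ m * ((16 ^ N) ^ m) ^ k * (4 ^ m) ^ (∑ j, (v j).primeFactors.card) *
          ∑ E ∈ (P3 cls s).powerset,
            ((S.filter (fun t : ℕ => neg3 cls α β t s = E)).card : ℝ) * g E := by
        rw [← mul_sum, h2]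
    _ ≤ (4 ^ (z + 2)) ^ m * ((16 ^ N) ^ m) ^ k * (4 ^ m) ^ (∑ j, (v j).primeFactors.card) *
          ∑ E ∈ (P3 cls s).powerset, Q * g E :=
        mul_le_mul_of_nonneg_left (sum_le_sum h3) (by positivity)
    _ = _ := by
        have e1 : NBk m cls κ s = (1 / 2) ^ (P3 cls s).card *
            ∑ E ∈ (P3 cls s).powerset, g E := rfl
        have e2 : (∏ j, (4 ^ m : ℝ) ^ (v j).primeFactors.card * (gw 1 N (v j) / v j)) =
            (4 ^ m) ^ (∑ j, (v j).primeFactors.card) * ∏ j, (gw 1 N (v j) / v j) := by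
          rw [prod_mul_distrib, prod_pow_eq_pow_sum]
        rw [← mul_sum, e1, e2, hQ]
        ring

/-- the same with the zeros of the forms -/
theorem avgk_full (m : ℕ) (hm : 1 ≤ m) (cls : J → Fin 4) (hcls : cls = fun _ => 3)
    (a : Fin 3 → ℤ) (α β : J → ℤ) (ha : ∀ k, a k ≠ 0) (hα : ∀ j, α j ≠ 0)
    (hR : ∀ j l, j ≠ l → Res α β j l ≠ 0)
    (hF : ∀ t : ℤ, F4 cls a α β t 0 - F4 cls a α β t 1 = F4 cls a α β t 2) :
    ∃ C : ℝ, 0 ≤ C ∧ ∀ X : ℕ, ∑ t ∈ Icc 1 X, ((2 : ℝ) ^ Module.finrank ℤ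
        (EAB (F4 cls a α β (t : ℤ) 0) (F4 cls a α β (t : ℤ) 1)).toAffine.Point) ^ m ≤ C * X := by
  classical
  obtain ⟨C, hC⟩ := avgk m hm cls hcls a α β ha hα hR hF
  set R : ℕ → ℝ := fun t => ((2 : ℝ) ^ Module.finrank ℤ
        (EAB (F4 cls a α β (t : ℤ) 0) (F4 cls a α β (t : ℤ) 1)).toAffine.Point) ^ m with hRdef
  have hR0 : ∀ t, 0 ≤ R t := fun t => by positivity
  -- the zeros
  set T0 : ℕ := ∑ j, (β j).natAbs with hT0
  have hzero : ∀ t : ℕ, (¬ ∀ j, ff α β t j ≠ 0) → t ≤ T0 := by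
    intro t ht
    push Not at ht
    obtain ⟨j, hj⟩ := ht
    unfold ff at hj
    have h1 : (β j).natAbs = (α j).natAbs * t := by
      have h2 : β j = -(α j * t) := by linarith
      rw [h2, Int.natAbs_neg, Int.natAbs_mul, Int.natAbs_natCast]
    have h3 := single_le_sum (f := fun j => (β j).natAbs) (fun _ _ => Nat.zero_le _) (mem_univ j)
    have h4 : t ≤ (α j).natAbs * t := Nat.le_mul_of_pos_left _ (Int.natAbs_pos.2 (hα j))
    omega
  set D : ℝ := ∑ t ∈ Icc 1 T0, R t with hD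
  have hD0 : 0 ≤ D := sum_nonneg fun t _ => hR0 t
  refine ⟨max C 0 + D, add_nonneg (le_max_right _ _) hD0, fun X => ?_⟩
  rcases Nat.eq_zero_or_pos X with hX | hX
  · subst hX; simp
  have hXr : (1 : ℝ) ≤ X := by exact_mod_cast hX
  have h1 : ∑ t ∈ Icc 1 X, R t = ∑ t ∈ (Icc 1 X).filter (fun t : ℕ => ∀ j, ff α β t j ≠ 0), R t +
      ∑ t ∈ (Icc 1 X).filter (fun t : ℕ => ¬ ∀ j, ff α β t j ≠ 0), R t :=
    (sum_filter_add_sum_filter_not _ _ _).symm
  have h2 : ∑ t ∈ (Icc 1 X).filter (fun t : ℕ => ¬ ∀ j, ff α β t j ≠ 0), R t ≤ D := by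
    refine sum_le_sum_of_subset_of_nonneg ?_ (fun t _ _ => hR0 t)
    intro t ht
    rw [mem_filter, mem_Icc] at ht
    rw [mem_Icc]
    exact ⟨ht.1.1, hzero t ht.2⟩
  have h3 := hC X
  have h4 : C * X ≤ max C 0 * X := mul_le_mul_of_nonneg_right (le_max_left _ _) (by positivity)
  have h5 : D ≤ D * X := le_mul_of_one_le_right hD0 hXr
  show ∑ t ∈ Icc 1 X, R t ≤ (max C 0 + D) * X
  rw [h1, add_mul]
  exact add_le_add (h3.trans h4) (h2.trans h5)

end Pool.Agent.U563.MM
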