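import Mathlib
import Pool.Agent.U563.MM.Avg

/-!
# Quadratic twists by products of linear forms: all integers `t`
-/

set_option autoImplicit false

namespace Pool.Agent.U563.MM

open Finset Pool.Agent.W262.RK

/-- the twist by `c * ∏ (α j * t + β j)` of `y² = x (x - a) (x - b)` -/
def ET {J : Type} [Fintype J] (a b c : ℤ) (α β : J → ℤ) (t : ℤ) : WeierstrassCurve ℚ :=
  EAB (a * (c * ∏ j, (α j * t + β j))) (b * (c * ∏ j, (α j * t + β j)))

variable {J : Type} [Fintype J] [DecidableEq J]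

lemma half_avg (m : ℕ) (hm : 1 ≤ m) (a b c : ℤ) (ha : a ≠ 0) (hb : b ≠ 0) (hab : a ≠ b)
    (hc : c ≠ 0) (α β : J → ℤ) (hα : ∀ j, α j ≠ 0)
    (hR : ∀ j l, j ≠ l → α j * β l ≠ α l * β j) :
    ∃ C : ℝ, 0 ≤ C ∧ ∀ X : ℕ, ∑ t ∈ Icc 1 X, ((2 : ℝ) ^ Module.finrank ℤ
        (ET a b c α β (t : ℤ)).toAffine.Point) ^ m ≤ C * X := by
  have hfs : ∀ k : Fin 3, fs (fun _ : J => (3 : Fin 4)) k = univ := by
    intro k
    unfold fs
    exact filter_true_of_mem fun _ _ => Or.inr rfl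
  have hF : ∀ (t : ℤ) (k : Fin 3), F4 (fun _ : J => (3 : Fin 4)) ![a * c, b * c, (a - b) * c] α β t k =
      ![a * c, b * c, (a - b) * c] k * ∏ j, (α j * t + β j) := by
    intro t k
    unfold F4
    rw [hfs]
    rfl
  obtain ⟨C, hC0, hC⟩ := avgk_full m hm (fun _ : J => (3 : Fin 4)) rfl
    ![a * c, b * c, (a - b) * c] α β
    (by
      intro k
      fin_cases k
      · exact mul_ne_zero ha hc
      · exact mul_ne_zero hb hc
      · exact mul_ne_zero (sub_ne_zero.2 hab) hc) hα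
    (fun j l hjl => sub_ne_zero.2 (hR j l hjl))
    (fun t => by
      rw [hF, hF, hF]
      simp only [Matrix.cons_val_zero, Matrix.cons_val_one, Matrix.cons_val_two, Matrix.head_cons,
        Matrix.tail_cons, Matrix.cons_val]
      ring)
  refine ⟨C, hC0, fun X => le_trans (le_of_eq (sum_congr rfl fun t _ => ?_)) (hC X)⟩
  have h1 : F4 (fun _ : J => (3 : Fin 4)) ![a * c, b * c, (a - b) * c] α β (t : ℤ) 0 =
      a * (c * ∏ j, (α j * (t : ℤ) + β j)) := by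
    rw [hF]
    simp only [Matrix.cons_val_zero]
    rw [mul_assoc]
  have h2 : F4 (fun _ : J => (3 : Fin 4)) ![a * c, b * c, (a - b) * c] α β (t : ℤ) 1 =
      b * (c * ∏ j, (α j * (t : ℤ) + β j)) := by
    rw [hF]
    simp only [Matrix.cons_val_one, Matrix.cons_val_zero]
    rw [mul_assoc]
  rw [h1, h2]
  rfl

/-- all moments of `2 ^ rank` in the family of the twists by `c * ∏ (α j * t + β j)` -/
theorem avg_int (m : ℕ) (hm : 1 ≤ m) (a b c : ℤ) (ha : a ≠ 0) (hb : b ≠ 0) (hab : a ≠ b)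
    (hc : c ≠ 0) (α β : J → ℤ) (hα : ∀ j, α j ≠ 0)
    (hR : ∀ j l, j ≠ l → α j * β l ≠ α l * β j) :
    ∃ C : ℝ, 0 ≤ C ∧ ∀ X : ℕ, 1 ≤ X → ∑ t ∈ Icc (-(X : ℤ)) X, ((2 : ℝ) ^ Module.finrank ℤ
        (ET a b c α β t).toAffine.Point) ^ m ≤ C * X := by
  obtain ⟨C1, hC10, hC1⟩ := half_avg m hm a b c ha hb hab hc α β hα hR
  obtain ⟨C2, hC20, hC2⟩ := half_avg m hm a b c ha hb hab hc (fun j => -α j) β
    (fun j => neg_ne_zero.2 (hα j)) (fun j l h h3 => hR j l h (by linarith))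
  have hneg : ∀ t : ℤ, ET a b c (fun j => -α j) β t = ET a b c α β (-t) := by
    intro t
    unfold ET
    have : ∀ j, -α j * t + β j = α j * (-t) + β j := fun j => by ring
    simp only [this]
  set P : ℤ → ℝ := fun t => ((2 : ℝ) ^ Module.finrank ℤ
        (ET a b c α β t).toAffine.Point) ^ m with hP
  have hP0 : ∀ t, 0 ≤ P t := fun t => by positivity
  refine ⟨C1 + C2 + P 0, add_nonneg (add_nonneg hC10 hC20) (hP0 0), fun X hX => ?_⟩
  have hXr : (1 : ℝ) ≤ X := by exact_mod_cast hX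
  have e1 : ∑ t ∈ Icc 1 X, P (t : ℤ) ≤ C1 * X := hC1 X
  have e2 : ∑ t ∈ Icc 1 X, P (-(t : ℤ)) ≤ C2 * X := by
    have h := hC2 X
    rw [sum_congr rfl (fun t _ => by rw [hneg])] at h
    exact h
  have hsub : Icc (-(X : ℤ)) X ⊆ ((Icc 1 X).image (fun t : ℕ => (t : ℤ)) ∪
      (Icc 1 X).image (fun t : ℕ => -(t : ℤ))) ∪ {0} := by
    intro t ht
    rw [mem_Icc] at ht
    rw [mem_union, mem_union, mem_image, mem_image, mem_singleton]
    rcases lt_trichotomy t 0 with h | h | h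
    · left; right
      exact ⟨t.natAbs, mem_Icc.2 (by omega), by omega⟩
    · right; exact h
    · left; left
      exact ⟨t.natAbs, mem_Icc.2 (by omega), by omega⟩
  have hun : ∀ S T : Finset ℤ, ∑ t ∈ S ∪ T, P t ≤ ∑ t ∈ S, P t + ∑ t ∈ T, P t := by
    intro S T
    rw [← sum_union_inter]
    exact le_add_of_nonneg_right (sum_nonneg fun t _ => hP0 t)
  have e3 : ∑ t ∈ (Icc 1 X).image (fun t : ℕ => (t : ℤ)), P t = ∑ t ∈ Icc 1 X, P (t : ℤ) :=
    sum_image (fun i _ j _ hij => by exact_mod_cast hij)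
  have e4 : ∑ t ∈ (Icc 1 X).image (fun t : ℕ => -(t : ℤ)), P t = ∑ t ∈ Icc 1 X, P (-(t : ℤ)) :=
    sum_image (fun i _ j _ hij => by simpa using hij)
  show ∑ t ∈ Icc (-(X : ℤ)) X, P t ≤ (C1 + C2 + P 0) * X
  have h5 := (sum_le_sum_of_subset_of_nonneg hsub (fun t _ _ => hP0 t)).trans
    ((hun _ _).trans (add_le_add (hun _ _) le_rfl))
  rw [e3, e4, sum_singleton] at h5
  have h6 : P 0 ≤ P 0 * X := le_mul_of_one_le_right (hP0 0) hXr
  linarith

end Pool.Agent.U563.MM
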