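import Mathlib
import Pool.Agent.Y888.XD.Qf
import Pool.Agent.Y421.XD.Rke
import Pool.Agent.Y51.XD.Deg2

/-!
# The rank over a multiquadratic field is at most the sum of the ranks of the twists

The quadratic step (`s_qf`), the transport (`s_rke`) and the degree (`s_deg2`) are theorems of the
projects Y682, Y888, Y421, Y51; the induction follows `Pool/Agent/Y682/XD/Alg.lean`.
-/

set_option autoImplicit false

open NumberField

namespace Pool.Agent.U563.MM

open Pool.Agent.TH841.NF.D (rk)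
open Pool.Agent.Y682 (gc)

/-- the field generated by the square roots of the elements of `S` -/
noncomputable def mqf (S : Finset ℤ) : IntermediateField ℚ ℂ :=
  IntermediateField.adjoin ℚ {z : ℂ | ∃ d ∈ S, z ^ 2 = (d : ℂ)}

lemma mqf_empty : mqf ∅ = ⊥ := by
  unfold mqf
  rw [IntermediateField.adjoin_eq_bot_iff]
  rintro z ⟨d, hd, -⟩
  exact absurd hd (Finset.notMem_empty d)

lemma mqf_insert (S : Finset ℤ) (d : ℤ) {z : ℂ} (hz : z ^ 2 = (d : ℂ)) :
    mqf (insert d S) = mqf S ⊔ IntermediateField.adjoin ℚ {z} := by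
  apply le_antisymm
  · unfold mqf
    rw [IntermediateField.adjoin_le_iff]
    rintro w ⟨e, he, hw⟩
    rcases Finset.mem_insert.1 he with rfl | he
    · have h1 : z ∈ IntermediateField.adjoin ℚ {z} := IntermediateField.mem_adjoin_simple_self ℚ z
      have h2 : w ∈ IntermediateField.adjoin ℚ {z} := by
        rcases sq_eq_sq_iff_eq_or_eq_neg.1 (hw.trans hz.symm) with h | h
        · rw [h]; exact h1
        · rw [h]; exact neg_mem h1
      exact (le_sup_right : _ ≤ (IntermediateField.adjoin ℚ {z : ℂ | ∃ d ∈ S, z ^ 2 = (d : ℂ)}) ⊔ _) h2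
    · exact (le_sup_left : (IntermediateField.adjoin ℚ {z : ℂ | ∃ d ∈ S, z ^ 2 = (d : ℂ)}) ≤ _ ⊔
        IntermediateField.adjoin ℚ {z}) (IntermediateField.subset_adjoin ℚ _ ⟨e, he, hw⟩)
  · refine sup_le ?_ ?_
    · unfold mqf
      refine IntermediateField.adjoin.mono ℚ _ _ ?_
      rintro w ⟨e, he, hw⟩
      exact ⟨e, Finset.mem_insert_of_mem he, hw⟩
    · rw [IntermediateField.adjoin_simple_le_iff]
      exact IntermediateField.subset_adjoin ℚ _ ⟨d, Finset.mem_insert_self _ _, hz⟩

/-- the rank of the twist by `c` of `y² = x³ + A x² + B x` -/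
noncomputable def RT (A B : ℤ) (F : Type) [Field F] [NumberField F] (c : ℤ) : ℕ :=
  rk (gc (A * c) (B * c ^ 2) F)

section

variable {A B : ℤ} (hB : B ≠ 0) (hD : A ^ 2 - 4 * B ≠ 0)

include hB hD

lemma tw_ne {c : ℤ} (hc : c ≠ 0) : B * c ^ 2 ≠ 0 ∧ (A * c) ^ 2 - 4 * (B * c ^ 2) ≠ 0 := by
  have h2 : c ^ 2 ≠ 0 := pow_ne_zero 2 hc
  refine ⟨mul_ne_zero hB h2, ?_⟩
  have e1 : (A * c) ^ 2 - 4 * (B * c ^ 2) = (A ^ 2 - 4 * B) * c ^ 2 := by ring
  rw [e1]
  exact mul_ne_zero hD h2

lemma RT_iso {K K' : Type} [Field K] [NumberField K] [Field K'] [NumberField K']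
    (e : K ≃+* K') {c : ℤ} (hc : c ≠ 0) : RT A B K c = RT A B K' c :=
  Pool.Agent.Y421.XD.s_rke K K' e _ _ (tw_ne hB hD hc).1 (tw_ne hB hD hc).2

/-- the quadratic formula -/
lemma RT_quad (F F' : IntermediateField ℚ ℂ) [NumberField F] [NumberField F'] {z : ℂ} {d : ℤ}
    (hd : d ≠ 0) (hz : z ∉ F) (hz2 : z ^ 2 = (d : ℂ))
    (hF' : F' = F ⊔ IntermediateField.adjoin ℚ {z}) {c : ℤ} (hc : c ≠ 0) :
    RT A B F' c = RT A B F c + RT A B F (c * d) := by
  have hle : F ≤ F' := by rw [hF']; exact le_sup_left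
  have hzF' : z ∈ F' := by
    rw [hF']
    exact (le_sup_right : _ ≤ F ⊔ IntermediateField.adjoin ℚ {z})
      (IntermediateField.mem_adjoin_simple_self ℚ z)
  let _ : Algebra F F' := (IntermediateField.inclusion hle).toRingHom.toAlgebra
  have h3 := Pool.Agent.Y888.XD.s_qf F F' (A * c) (B * c ^ 2) d (⟨z, hzF'⟩ : F')
    (tw_ne hB hD hc).1 (tw_ne hB hD hc).2 hd (Subtype.ext (by
      show z ^ 2 = _
      rw [hz2]
      rfl)) (Pool.Agent.Y51.XD.s_deg2 F F' z d hz hz2 hle hF') (by
      intro x hx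
      apply hz
      have h4 := congrArg (fun y : F' => (y : ℂ)) hx
      have h5 : (x : ℂ) = z := h4
      rw [← h5]
      exact x.2)
  unfold RT
  rw [h3]
  congr 2
  · congr 1
    · ring
    · ring

omit hB hD in
lemma findim_adj {z : ℂ} {d : ℤ} (hz : z ^ 2 = (d : ℂ)) :
    FiniteDimensional ℚ (IntermediateField.adjoin ℚ {z} : IntermediateField ℚ ℂ) :=
  IntermediateField.adjoin.finiteDimensional ⟨Polynomial.X ^ 2 - Polynomial.C (d : ℚ),
    Polynomial.monic_X_pow_sub_C _ (by norm_num), by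
      rw [Polynomial.eval₂_sub, Polynomial.eval₂_pow, Polynomial.eval₂_X,
        Polynomial.eval₂_C, hz, map_intCast, sub_self]⟩

omit hB hD in
lemma findim (S : Finset ℤ) : FiniteDimensional ℚ (mqf S) := by
  classical
  induction S using Finset.induction_on with
  | empty =>
    rw [mqf_empty]
    infer_instance
  | insert d S hdS ih =>
    obtain ⟨z, hz⟩ : ∃ z : ℂ, z ^ 2 = (d : ℂ) := IsAlgClosed.exists_pow_nat_eq _ (by norm_num)
    rw [mqf_insert S d hz]
    have := findim_adj hz
    exact IntermediateField.finiteDimensional_sup _ _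

omit hB hD in
lemma nf (S : Finset ℤ) : NumberField (mqf S) :=
  { to_charZero := inferInstance, to_finiteDimensional := findim S }

/-- **The rank over the multiquadratic field is at most the sum of the ranks of the twists.** -/
theorem rank_le {ι : Type} [DecidableEq ι] (w : ι → ℤ) (hw : ∀ i, w i ≠ 0) (U : Finset ι) :
    ∀ (F : IntermediateField ℚ ℂ) [NumberField F], F = mqf (U.image w) → ∀ c : ℤ, c ≠ 0 →
      RT A B F c ≤ ∑ T ∈ U.powerset, RT A B ℚ (c * ∏ i ∈ T, w i) := by
  classical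
  induction U using Finset.induction_on with
  | empty =>
    intro F _ hF c hc
    rw [Finset.image_empty, mqf_empty] at hF
    subst hF
    rw [Finset.powerset_empty, Finset.sum_singleton, Finset.prod_empty, mul_one]
    exact (RT_iso hB hD (IntermediateField.botEquiv ℚ ℂ).toRingEquiv hc).le
  | insert i U hi ih =>
    intro F _ hF c hc
    obtain ⟨z, hz⟩ : ∃ z : ℂ, z ^ 2 = ((w i : ℤ) : ℂ) :=
      IsAlgClosed.exists_pow_nat_eq _ (by norm_num)
    have hins := mqf_insert (U.image w) (w i) hz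
    rw [Finset.image_insert] at hF
    have hG₀ : NumberField (mqf (U.image w)) := nf _
    have hsum : ∑ T ∈ (insert i U).powerset, RT A B ℚ (c * ∏ i ∈ T, w i) =
        ∑ T ∈ U.powerset, RT A B ℚ (c * ∏ i ∈ T, w i) +
          ∑ T ∈ U.powerset, RT A B ℚ ((c * w i) * ∏ i ∈ T, w i) := by
      rw [Finset.sum_powerset_insert hi]
      congr 1
      refine Finset.sum_congr rfl fun T hT => ?_
      have : i ∉ T := fun h => hi (Finset.mem_powerset.1 hT h)
      rw [Finset.prod_insert this, mul_assoc]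
    rw [hsum]
    by_cases hz0 : z ∈ mqf (U.image w)
    · have hF2 : F = mqf (U.image w) := by
        rw [hF, hins]
        exact sup_eq_left.2 ((IntermediateField.adjoin_simple_le_iff).2 hz0)
      exact (ih F hF2 c hc).trans (Nat.le_add_right _ _)
    · rw [RT_quad hB hD (mqf (U.image w)) F (hw i) hz0 hz (hF.trans hins) hc]
      exact add_le_add (ih (mqf (U.image w)) rfl c hc)
        (ih (mqf (U.image w)) rfl (c * w i) (mul_ne_zero hc (hw i)))

end

end Pool.Agent.U563.MM
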